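import Pool.Agent.W180.TP.Pts

set_option autoImplicit false

/-!
A point close to all of `P i` is close to one of their common zeros.
-/

namespace Pool.Agent.W180.TP

open MvPolynomial Finset NumberField IsDedekindDomain Height
open Pool.Agent.W180.OP
open scoped LinearAlgebra.Projectivization

section del

variable {K L : Type} [Field K] [Field L] [Algebra K L] (f : AbsoluteValue L ℝ) {n : ℕ}

/-- the distance to a point -/
noncomputable def del (y : Fin n → K) (x : Fin n → L) : ℝ := ⨆ t, rho f 1 (eqn y t) x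

lemma le_del (y : Fin n → K) (x : Fin n → L) (t : Fin n × Fin n) :
    rho f 1 (eqn y t) x ≤ del f y x :=
  le_ciSup (f := fun t => rho f 1 (eqn y t) x) (Set.finite_range _).bddAbove t

lemma del_nonneg (y : Fin n → K) (x : Fin n → L) : 0 ≤ del f y x :=
  Real.iSup_nonneg fun _ => rho_nonneg f _ _ _

lemma exists_del (hn : 0 < n) (y : Fin n → K) (x : Fin n → L) :
    ∃ t, rho f 1 (eqn y t) x = del f y x := by
  have : Nonempty (Fin n × Fin n) := ⟨(⟨0, hn⟩, ⟨0, hn⟩)⟩
  obtain ⟨j, hj⟩ := exists_eq_ciSup_of_finite (f := fun t => rho f 1 (eqn y t) x)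
  exact ⟨j, hj⟩

lemma sum_le_del (y : Fin n → K) (x : Fin n → L) :
    ∑ t, rho f 1 (eqn y t) x ≤ (n : ℝ) ^ 2 * del f y x := by
  have h1 : ∑ t, rho f 1 (eqn y t) x ≤ ∑ _t : Fin n × Fin n, del f y x :=
    Finset.sum_le_sum fun t _ => le_del f y x t
  rw [Finset.sum_const, Finset.card_univ, Fintype.card_prod, Fintype.card_fin, nsmul_eq_mul] at h1
  push_cast at h1
  rw [sq]
  exact h1

lemma del_pos {y : Fin n → K} (hy : y ≠ 0) {x : Fin n → L} (hx : x ≠ 0)
    (h : ¬ ∃ c : L, x = c • fun b => algebraMap K L (y b)) : 0 < del f y x := by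
  by_contra hcon
  push Not at hcon
  apply h
  refine eqn_zero hy fun t => ?_
  by_contra ht
  have h1 := rho_pos f 1 (eqn y t) hx ht
  have h2 := le_del f y x t
  linarith

end del

variable {K : Type} [Field K] [NumberField K]

theorem ineq0 {n : ℕ} {ι : Type} [Fintype ι] (P : ι → MvPolynomial (Fin n) K)
    (e : ι → ℕ) (hP : ∀ i, (P i).IsHomogeneous (e i)) (Q : MvPolynomial (Fin n) K) (e0 : ℕ)
    (hQ : Q.IsHomogeneous e0)
    (h : ∀ a, ∃ M : ℕ, X a ^ M * Q ∈ Ideal.span (Set.range P)) :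
    ∃ C : ℝ, 0 ≤ C ∧ ∀ (L : Type) [Field L] [NumberField L] [Algebra K L] (p : Pl L),
      ∃ R : ℝ, UB C p R ∧ ∀ x : Fin n → L, x ≠ 0 →
        rho (av p) e0 Q x ≤ R * ∑ i, rho (av p) (e i) (P i) x := by
  obtain ⟨C, hC0, hC⟩ := ineq P e hP (κ := Empty) (fun k => k.elim) (fun k => k.elim)
    (fun k => k.elim) Q e0 hQ (by
      intro a
      obtain ⟨M, hM⟩ := h a
      refine ⟨M, Ideal.span_mono ?_ hM⟩
      rintro _ ⟨i, rfl⟩
      exact ⟨Sum.inl i, rfl⟩)
  refine ⟨C, hC0, fun L _ _ _ p => ?_⟩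
  obtain ⟨R, hR, h2⟩ := hC L p
  exact ⟨R, hR, fun x hx => h2 x hx fun k => k.elim⟩

omit [NumberField K] in
lemma rep_indep {n : ℕ} {y y' : ℙ K (Fin n → K)} (hyy : y ≠ y') :
    LinearIndependent K ![y.rep, y'.rep] := by
  have h1 := (Projectivization.independent_pair_iff_ne y y').2 hyy
  have h2 := (Projectivization.independent_iff (f := ![y, y'])).1 h1
  have h3 : ![y.rep, y'.rep] = Projectivization.rep ∘ ![y, y'] := by
    funext i
    fin_cases i <;> rfl
  rw [h3]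
  exact h2

/-- different points are apart -/
theorem sep {n : ℕ} (y y' : ℙ K (Fin n → K)) (hyy : y ≠ y') :
    ∃ C : ℝ, 0 ≤ C ∧ ∀ (L : Type) [Field L] [NumberField L] [Algebra K L] (p : Pl L),
      ∃ R : ℝ, UB C p R ∧ ∀ x : Fin n → L, x ≠ 0 →
        1 ≤ R * (del (av p) y.rep x + del (av p) y'.rep x) := by
  have hli := rep_indep hyy
  have hn : 0 < n := by
    obtain ⟨j, _⟩ := Function.ne_iff.1 y.rep_nonzero
    exact Fin.pos j
  obtain ⟨C, hC0, hC⟩ := ineq0 (Sum.elim (eqn y.rep) (eqn y'.rep)) (fun _ => 1) (by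
      rintro (t | t)
      · exact eqn_hom _ _
      · exact eqn_hom _ _) 1 0 (isHomogeneous_one _ _) (by
      intro a
      have h1 : (X a : MvPolynomial (Fin n) K) ∈
          (Ideal.span (Set.range (Sum.elim (eqn y.rep) (eqn y'.rep)))).radical := by
        refine mem_rad _ _ fun L _ _ x hx => ?_
        obtain ⟨c, hc⟩ := eqn_zero y.rep_nonzero (fun t => hx (Sum.inl t))
        by_contra hxa
        rw [aeval_X] at hxa
        have hc0 : c ≠ 0 := by
          rintro rfl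
          apply hxa
          rw [hc, zero_smul, Pi.zero_apply]
        obtain ⟨b, hb⟩ := Function.ne_iff.1 y'.rep_nonzero
        rw [LinearIndependent.pair_iff] at hli
        have h1 := hli (y'.rep b) (- y.rep b) (by
          funext d
          simp only [Pi.add_apply, Pi.smul_apply, smul_eq_mul, Pi.zero_apply]
          have h2 := hx (Sum.inr (d, b))
          simp only [Sum.elim_inr] at h2
          rw [aeval_eqn, hc] at h2
          simp only [Pi.smul_apply, smul_eq_mul] at h2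
          have h3 : c * algebraMap K L (y'.rep b * y.rep d + - y.rep b * y'.rep d) = 0 := by
            rw [map_add, map_mul, map_mul, map_neg]
            linear_combination h2
          exact (map_eq_zero _).1 ((mul_eq_zero.1 h3).resolve_left hc0))
        exact hb h1.1
      obtain ⟨M, hM⟩ := h1
      exact ⟨M, by rwa [mul_one]⟩)
  refine ⟨Real.log ((n : ℝ) ^ 2) + C, add_nonneg (Real.log_nonneg ?_) hC0, fun L _ _ _ p => ?_⟩
  · have : (1 : ℝ) ≤ n := by exact_mod_cast hn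
    exact one_le_pow₀ this
  obtain ⟨R, hR, h2⟩ := hC L p
  have hn1 : (1 : ℝ) ≤ (n : ℝ) ^ 2 := by
    have : (1 : ℝ) ≤ n := by exact_mod_cast hn
    exact one_le_pow₀ this
  refine ⟨(n : ℝ) ^ 2 * R, (UB.const p hn1).mul hR, fun x hx => ?_⟩
  have h3 := h2 x hx
  rw [rho_one, Fintype.sum_sum_type] at h3
  simp only [Sum.elim_inl, Sum.elim_inr] at h3
  have h4 := sum_le_del (av p) y.rep x
  have h5 := sum_le_del (av p) y'.rep x
  calc (1 : ℝ) ≤ _ := h3
    _ ≤ R * ((n : ℝ) ^ 2 * del (av p) y.rep x + (n : ℝ) ^ 2 * del (av p) y'.rep x) :=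
        mul_le_mul_of_nonneg_left (add_le_add h4 h5) (by linarith [hR.1])
    _ = _ := by ring

/-- a point close to all the `P i` is close to one of their common zeros -/
theorem near {n : ℕ} {ι κ : Type} [Fintype ι] [Fintype κ] (P : ι → MvPolynomial (Fin n) K)
    (e : ι → ℕ) (hP : ∀ i, (P i).IsHomogeneous (e i)) (G : κ → MvPolynomial (Fin n) K)
    (g : κ → ℕ) (hG : ∀ k, (G k).IsHomogeneous (g k)) (μ : ℕ)
    (hred : ∀ a, ∀ Q ∈ (Ideal.span (Set.range (Sum.elim P G))).radical ^ μ,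
      ∃ M : ℕ, X a ^ M * Q ∈ Ideal.span (Set.range (Sum.elim P G)))
    (T : Finset (ℙ K (Fin n → K)))
    (hT : ∀ (L : Type) [Field L] [Algebra K L] (x : Fin n → L), x ≠ 0 →
      (∀ i, aeval x (P i) = 0) → (∀ k, aeval x (G k) = 0) →
        ∃ y ∈ T, ∃ c : L, x = c • fun b => algebraMap K L (y.rep b)) :
    ∃ C : ℝ, 0 ≤ C ∧ ∀ (L : Type) [Field L] [NumberField L] [Algebra K L] (p : Pl L),
      ∃ R : ℝ, UB C p R ∧ ∀ x : Fin n → L, x ≠ 0 → (∀ k, aeval x (G k) = 0) →
        (1 ≤ R * ∑ i, rho (av p) (e i) (P i) x) ∨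
        ∃ y ∈ T, del (av p) y.rep x ^ μ ≤ R * ∑ i, rho (av p) (e i) (P i) x := by
  classical
  rcases T.eq_empty_or_nonempty with hTe | hTe
  · obtain ⟨C, hC0, hC⟩ := ineq P e hP G g hG 1 0 (isHomogeneous_one _ _) (by
      intro a
      have h1 : (X a : MvPolynomial (Fin n) K) ∈
          (Ideal.span (Set.range (Sum.elim P G))).radical := by
        refine mem_rad _ _ fun L _ _ x hx => ?_
        by_contra hxa
        rw [aeval_X] at hxa
        obtain ⟨y, hy, -⟩ := hT L x (by rintro rfl; exact hxa rfl)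
          (fun i => hx (Sum.inl i)) (fun k => hx (Sum.inr k))
        rw [hTe] at hy
        exact absurd hy (Finset.notMem_empty _)
      obtain ⟨M, hM⟩ := h1
      exact ⟨M, by rwa [mul_one]⟩)
    refine ⟨C, hC0, fun L _ _ _ p => ?_⟩
    obtain ⟨R, hR, h2⟩ := hC L p
    refine ⟨R, hR, fun x hx hGx => Or.inl ?_⟩
    have := h2 x hx hGx
    rwa [rho_one] at this
  -- the products
  set Qc : (T → Fin n × Fin n) → MvPolynomial (Fin n) K := fun c =>
    ∏ y : T, eqn y.1.rep (c y) with hQc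
  have hprod : ∀ c : T → Fin n × Fin n, ∃ C : ℝ, 0 ≤ C ∧ ∀ (L : Type) [Field L] [NumberField L] [Algebra K L]
      (p : Pl L), ∃ R : ℝ, UB C p R ∧ ∀ x : Fin n → L, x ≠ 0 → (∀ k, aeval x (G k) = 0) →
        (∏ y : T, rho (av p) 1 (eqn y.1.rep (c y)) x) ^ μ ≤
          R * ∑ i, rho (av p) (e i) (P i) x := by
    intro c
    have hrad : Qc c ∈ (Ideal.span (Set.range (Sum.elim P G))).radical := by
      refine mem_rad _ _ fun L _ _ x hx => ?_
      simp only [hQc, map_prod]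
      by_cases hx0 : x = 0
      · obtain ⟨y, hy⟩ := hTe
        refine Finset.prod_eq_zero (Finset.mem_univ ⟨y, hy⟩) ?_
        rw [aeval_eqn, hx0]
        simp
      · obtain ⟨y, hy, c', hc'⟩ := hT L x hx0 (fun i => hx (Sum.inl i)) (fun k => hx (Sum.inr k))
        refine Finset.prod_eq_zero (Finset.mem_univ ⟨y, hy⟩) ?_
        rw [aeval_eqn, hc']
        simp only [Pi.smul_apply, smul_eq_mul]
        ring
    have hhom : (Qc c ^ μ).IsHomogeneous (Fintype.card T * μ) := by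
      refine IsHomogeneous.pow ?_ μ
      have := IsHomogeneous.prod Finset.univ (fun y : T => eqn y.1.rep (c y)) (fun _ => 1)
        (fun y _ => eqn_hom _ _)
      rw [Finset.sum_const, Finset.card_univ, smul_eq_mul, mul_one] at this
      exact this
    obtain ⟨C, hC0, hC⟩ := ineq P e hP G g hG (Qc c ^ μ) _ hhom fun a =>
      hred a _ (Ideal.pow_mem_pow hrad μ)
    refine ⟨C, hC0, fun L _ _ _ p => ?_⟩
    obtain ⟨R, hR, h2⟩ := hC L p
    refine ⟨R, hR, fun x hx hGx => ?_⟩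
    have h3 := h2 x hx hGx
    rw [rho_pow] at h3
    have h4 : rho (av p) (Fintype.card T) (Qc c) x =
        ∏ y : T, rho (av p) 1 (eqn y.1.rep (c y)) x :=
      rho_prod (av p) Finset.univ (fun y : T => eqn y.1.rep (c y)) x
    rwa [h4] at h3
  choose C1 hC10 hC1 using hprod
  have hsep : ∀ t : T × T, ∃ C : ℝ, 0 ≤ C ∧ ∀ (L : Type) [Field L] [NumberField L] [Algebra K L]
      (p : Pl L), ∃ R : ℝ, UB C p R ∧ (t.1 ≠ t.2 → ∀ x : Fin n → L, x ≠ 0 →
        1 ≤ R * (del (av p) t.1.1.rep x + del (av p) t.2.1.rep x)) := by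
    intro t
    by_cases ht : t.1 = t.2
    · refine ⟨0, le_rfl, fun L _ _ _ p => ⟨1, ⟨le_rfl, by simp⟩, fun h => absurd ht h⟩⟩
    · obtain ⟨C, hC0, hC⟩ := sep t.1.1 t.2.1 (fun h => ht (Subtype.ext h))
      refine ⟨C, hC0, fun L _ _ _ p => ?_⟩
      obtain ⟨R, hR, h2⟩ := hC L p
      exact ⟨R, hR, fun _ => h2⟩
  choose C2 hC20 hC2 using hsep
  refine ⟨∑ c, C1 c + ((((T.card - 1) * μ : ℕ) : ℝ) * ∑ t, (Real.log 2 + C2 t)),
    add_nonneg (Finset.sum_nonneg fun c _ => hC10 c) (mul_nonneg (Nat.cast_nonneg _)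
      (Finset.sum_nonneg fun t _ => add_nonneg (Real.log_nonneg one_le_two) (hC20 t))),
    fun L _ _ _ p => ?_⟩
  choose R1 hR1 h1 using fun c => hC1 c L p
  choose R2 hR2 h2 using fun t => hC2 t L p
  set D : ℝ := ∏ t : T × T, (2 * R2 t) with hD
  have hDub : UB (∑ t, (Real.log 2 + C2 t)) p D :=
    UB.prod Finset.univ fun t _ => (UB.const p one_le_two).mul (hR2 t)
  refine ⟨(∏ c, R1 c) * D ^ ((T.card - 1) * μ), (UB.prod Finset.univ fun c _ => hR1 c).mul
    (hDub.pow _), fun x hx hGx => Or.inr ?_⟩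
  obtain ⟨y0, hy0, hmin⟩ := Finset.exists_min_image T (fun y => del (av p) y.rep x) hTe
  have hn : 0 < n := by
    obtain ⟨j, _⟩ := Function.ne_iff.1 hx
    exact Fin.pos j
  choose c hc using fun y : T => exists_del (av p) hn y.1.rep x
  have hfar : ∀ y ∈ T.erase y0, 1 ≤ D * del (av p) y.rep x := by
    intro y hy
    have hyT := Finset.mem_of_mem_erase hy
    have hne : (⟨y, hyT⟩ : T) ≠ ⟨y0, hy0⟩ := fun h =>
      (Finset.ne_of_mem_erase hy) (congrArg Subtype.val h)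
    have e1 := h2 (⟨y, hyT⟩, ⟨y0, hy0⟩) hne x hx
    have e2 : 2 * R2 (⟨y, hyT⟩, ⟨y0, hy0⟩) ≤ D :=
      UB.le_prod (s := Finset.univ) (R := fun t => 2 * R2 t)
        (fun t _ => (UB.const p one_le_two).mul (hR2 t)) (Finset.mem_univ _)
    have e3 := hmin y hyT
    have e4 := (hR2 (⟨y, hyT⟩, ⟨y0, hy0⟩)).1
    have e5 := del_nonneg (av p) y.rep x
    simp only at e1
    calc (1 : ℝ) ≤ _ := e1
      _ ≤ R2 (⟨y, hyT⟩, ⟨y0, hy0⟩) * (del (av p) y.rep x + del (av p) y.rep x) :=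
          mul_le_mul_of_nonneg_left (by linarith) (by linarith)
      _ = (2 * R2 (⟨y, hyT⟩, ⟨y0, hy0⟩)) * del (av p) y.rep x := by ring
      _ ≤ _ := mul_le_mul_of_nonneg_right e2 e5
  refine ⟨y0, hy0, ?_⟩
  have hd0 := del_nonneg (av p) y0.rep x
  have h3 : del (av p) y0.rep x ≤ D ^ (T.card - 1) * ∏ y ∈ T, del (av p) y.rep x := by
    rw [← Finset.mul_prod_erase T _ hy0, ← Finset.card_erase_of_mem hy0]
    have e1 : 1 ≤ ∏ y ∈ T.erase y0, (D * del (av p) y.rep x) := by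
      calc (1 : ℝ) = ∏ _y ∈ T.erase y0, (1 : ℝ) := by simp
        _ ≤ _ := Finset.prod_le_prod (fun _ _ => zero_le_one) hfar
    rw [Finset.prod_mul_distrib, Finset.prod_const] at e1
    calc del (av p) y0.rep x = del (av p) y0.rep x * 1 := (mul_one _).symm
      _ ≤ del (av p) y0.rep x * (D ^ (T.erase y0).card *
          ∏ y ∈ T.erase y0, del (av p) y.rep x) := mul_le_mul_of_nonneg_left e1 hd0
      _ = _ := by ring
  have h4 : (∏ y ∈ T, del (av p) y.rep x) ^ μ ≤ R1 c * ∑ i, rho (av p) (e i) (P i) x := by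
    have e1 := h1 c x hx hGx
    have e2 : ∏ y : T, rho (av p) 1 (eqn y.1.rep (c y)) x = ∏ y ∈ T, del (av p) y.rep x := by
      rw [← Finset.prod_coe_sort T]
      exact Finset.prod_congr rfl fun y _ => hc y
    rwa [e2] at e1
  have hs0 : 0 ≤ ∑ i, rho (av p) (e i) (P i) x := Finset.sum_nonneg fun _ _ => rho_nonneg _ _ _ _
  have hRc : R1 c ≤ ∏ c, R1 c := UB.le_prod (fun c _ => hR1 c) (Finset.mem_univ c)
  have hD0 : 0 ≤ D := by linarith [hDub.1]
  calc del (av p) y0.rep x ^ μ ≤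
      (D ^ (T.card - 1) * ∏ y ∈ T, del (av p) y.rep x) ^ μ := pow_le_pow_left₀ hd0 h3 μ
    _ = D ^ ((T.card - 1) * μ) * (∏ y ∈ T, del (av p) y.rep x) ^ μ := by
        rw [mul_pow, ← pow_mul]
    _ ≤ D ^ ((T.card - 1) * μ) * (R1 c * ∑ i, rho (av p) (e i) (P i) x) :=
        mul_le_mul_of_nonneg_left h4 (pow_nonneg hD0 _)
    _ ≤ D ^ ((T.card - 1) * μ) * ((∏ c, R1 c) * ∑ i, rho (av p) (e i) (P i) x) :=
        mul_le_mul_of_nonneg_left (mul_le_mul_of_nonneg_right hRc hs0) (pow_nonneg hD0 _)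
    _ = _ := by ring

end Pool.Agent.W180.TP
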