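import Pool.Agent.W180.TP.Near

set_option autoImplicit false

/-!
Linear forms through two common points.
-/

namespace Pool.Agent.W180.TP

open MvPolynomial Finset NumberField IsDedekindDomain Height
open Pool.Agent.W180.OP
open scoped LinearAlgebra.Projectivization

section alg

variable {K : Type} [Field K]

open Classical in
/-- linear forms through two points, which may be equal -/
noncomputable def fam {n : ℕ} (y y' : ℙ K (Fin n → K)) (t : Fin n × Fin n × Fin n) :
    MvPolynomial (Fin n) K :=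
  if y = y' then eqn y.rep (t.1, t.2.1) else mnr y.rep y'.rep t

lemma fam_hom {n : ℕ} (y y' : ℙ K (Fin n → K)) (t : Fin n × Fin n × Fin n) :
    (fam y y' t).IsHomogeneous 1 := by
  unfold fam
  split_ifs
  · exact eqn_hom _ _
  · exact mnr_hom _ _ _

lemma fam_mem {n : ℕ} (y y' : ℙ K (Fin n → K)) (t : Fin n × Fin n × Fin n) :
    fam y y' t ∈ Ideal.span (Set.range (eqn y.rep)) := by
  unfold fam
  split_ifs
  · exact Ideal.subset_span (Set.mem_range_self _)
  · exact mnr_mem _ _ _

lemma fam_mem' {n : ℕ} (y y' : ℙ K (Fin n → K)) (t : Fin n × Fin n × Fin n) :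
    fam y y' t ∈ Ideal.span (Set.range (eqn y'.rep)) := by
  unfold fam
  split_ifs with h
  · rw [h]
    exact Ideal.subset_span (Set.mem_range_self _)
  · exact mnr_mem' _ _ _

lemma fam_zero {L : Type} [Field L] [Algebra K L] {n : ℕ} (y y' : ℙ K (Fin n → K))
    {x : Fin n → L} (h : ∀ t, aeval x (fam y y' t) = 0) :
    ∃ s t : L, x = fun b => s * algebraMap K L (y.rep b) + t * algebraMap K L (y'.rep b) := by
  by_cases hyy : y = y'
  · obtain ⟨c, hc⟩ := eqn_zero y.rep_nonzero (x := x) (fun t => by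
      have := h (t.1, t.2, t.2)
      unfold fam at this
      rwa [if_pos hyy] at this)
    refine ⟨c, 0, ?_⟩
    rw [hc]
    funext b
    simp
  · refine mnr_zero (rep_indep hyy) fun t => ?_
    have := h t
    unfold fam at this
    rwa [if_neg hyy] at this

end alg

variable {K : Type} [Field K] [NumberField K]

/-- a linear form in the ideal of a point is small near the point -/
theorem lin_near {n : ℕ} (y : Fin n → K) {τ : Type} [Fintype τ]
    (Q : τ → MvPolynomial (Fin n) K) (hQ : ∀ t, (Q t).IsHomogeneous 1)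
    (h : ∀ t, Q t ∈ Ideal.span (Set.range (eqn y))) :
    ∃ C : ℝ, 0 ≤ C ∧ ∀ (L : Type) [Field L] [NumberField L] [Algebra K L] (p : Pl L),
      ∃ R : ℝ, UB C p R ∧ ∀ x : Fin n → L, x ≠ 0 → ∀ t,
        rho (av p) 1 (Q t) x ≤ R * del (av p) y x := by
  classical
  have h1 : ∀ t, ∃ C : ℝ, 0 ≤ C ∧ ∀ (L : Type) [Field L] [NumberField L] [Algebra K L]
      (p : Pl L), ∃ R : ℝ, UB C p R ∧ ∀ x : Fin n → L, x ≠ 0 →
        rho (av p) 1 (Q t) x ≤ R * ∑ i, rho (av p) 1 (eqn y i) x := fun t =>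
    ineq0 (eqn y) (fun _ => 1) (fun t => eqn_hom y t) (Q t) 1 (hQ t) fun a =>
      ⟨0, by rw [pow_zero, one_mul]; exact h t⟩
  choose C hC0 hC using h1
  refine ⟨Real.log ((n : ℝ) ^ 2 + 1) + ∑ t, C t, add_nonneg (Real.log_nonneg (by
    have : (0 : ℝ) ≤ (n : ℝ) ^ 2 := by positivity
    linarith)) (Finset.sum_nonneg fun t _ => hC0 t), fun L _ _ _ p => ?_⟩
  choose R hR h2 using fun t => hC t L p
  have hn : (1 : ℝ) ≤ (n : ℝ) ^ 2 + 1 := by
    have : (0 : ℝ) ≤ (n : ℝ) ^ 2 := by positivity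
    linarith
  have hub : UB (∑ t, C t) p (∏ t, R t) := UB.prod Finset.univ fun t _ => hR t
  refine ⟨((n : ℝ) ^ 2 + 1) * ∏ t, R t, (UB.const p hn).mul hub, fun x hx t => ?_⟩
  have h3 := h2 t x hx
  have h4 := sum_le_del (av p) y x
  have h5 : R t ≤ ∏ t, R t := UB.le_prod (fun t _ => hR t) (Finset.mem_univ t)
  have h6 := del_nonneg (av p) y x
  have h7 := (hR t).1
  calc rho (av p) 1 (Q t) x ≤ R t * ∑ i, rho (av p) 1 (eqn y i) x := h3
    _ ≤ R t * ((n : ℝ) ^ 2 * del (av p) y x) := mul_le_mul_of_nonneg_left h4 (by linarith)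
    _ ≤ (∏ t, R t) * (((n : ℝ) ^ 2 + 1) * del (av p) y x) :=
        mul_le_mul h5 (mul_le_mul_of_nonneg_right (by linarith) h6)
          (mul_nonneg (by positivity) h6) (by linarith [hub.1])
    _ = _ := by ring

/-- sums over pairs -/
theorem pair_sum {ι : Type} (S : Finset ι) (U : ι → ℝ) (H : ℝ) (hH : 0 ≤ H)
    (h1 : ∀ p ∈ S, U p ≤ H) (h2 : ∀ p ∈ S, ∀ p' ∈ S, p ≠ p' → U p + U p' ≤ H) :
    ∑ p ∈ S, U p ≤ max 1 ((S.card : ℝ) / 2) * H := by
  classical
  rcases Nat.lt_or_ge S.card 2 with hc | hc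
  · have hc' : S.card = 0 ∨ S.card = 1 := by omega
    have hm : 1 * H ≤ max 1 ((S.card : ℝ) / 2) * H :=
      mul_le_mul_of_nonneg_right (le_max_left _ _) hH
    rcases hc' with h | h
    · rw [Finset.card_eq_zero] at h
      rw [h, Finset.sum_empty]
      positivity
    · obtain ⟨p, hp⟩ := Finset.card_eq_one.1 h
      have := h1 p (by rw [hp]; exact Finset.mem_singleton_self _)
      rw [hp, Finset.sum_singleton]
      rw [hp] at hm
      linarith
  · set s : ℝ := (S.card : ℝ) with hs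
    have hs2 : (2 : ℝ) ≤ s := by rw [hs]; exact_mod_cast hc
    set T := ∑ p ∈ S, U p with hT
    have e1 : ∑ p ∈ S, ∑ p' ∈ S.erase p, (U p + U p') = 2 * (s - 1) * T := by
      have e2 : ∀ p ∈ S, ∑ p' ∈ S.erase p, (U p + U p') = (s - 2) * U p + T := by
        intro p hp
        have e0 : U p + ∑ p' ∈ S.erase p, U p' = T := Finset.add_sum_erase S U hp
        rw [Finset.sum_add_distrib, Finset.sum_const, Finset.card_erase_of_mem hp, nsmul_eq_mul]
        have h5 : ((S.card - 1 : ℕ) : ℝ) = s - 1 := by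
          rw [Nat.cast_sub (by omega)]; simp [hs]
        rw [h5]
        linear_combination e0
      rw [Finset.sum_congr rfl e2, Finset.sum_add_distrib, ← Finset.mul_sum, Finset.sum_const,
        nsmul_eq_mul]
      rw [← hT]
      ring
    have e3 : ∑ p ∈ S, ∑ p' ∈ S.erase p, (U p + U p') ≤ ∑ p ∈ S, ∑ _p' ∈ S.erase p, H :=
      Finset.sum_le_sum fun p hp => Finset.sum_le_sum fun p' hp' =>
        h2 p hp p' (Finset.mem_of_mem_erase hp') (Finset.ne_of_mem_erase hp').symm
    have e4 : ∑ p ∈ S, ∑ _p' ∈ S.erase p, H = s * (s - 1) * H := by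
      have e5 : ∀ p ∈ S, ∑ _p' ∈ S.erase p, H = (s - 1) * H := by
        intro p hp
        rw [Finset.sum_const, Finset.card_erase_of_mem hp, nsmul_eq_mul]
        congr 1
        rw [Nat.cast_sub (by omega)]; simp [hs]
      rw [Finset.sum_congr rfl e5, Finset.sum_const, nsmul_eq_mul]
      ring
    rw [e1, e4] at e3
    have e6 : 2 * T ≤ s * H := by
      have hs1 : 0 < s - 1 := by linarith
      have e7 : (s - 1) * (2 * T) ≤ (s - 1) * (s * H) := by linarith [e3]
      exact le_of_mul_le_mul_left e7 hs1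
    have hm : s / 2 * H ≤ max 1 (s / 2) * H :=
      mul_le_mul_of_nonneg_right (le_max_right _ _) hH
    linarith

end Pool.Agent.W180.TP
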