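import Pool.Agent.W180.OP.Line

set_option autoImplicit false

/-!
Height bounds for numbers in `K`, uniform in the extension `L`.
-/

namespace Pool.Agent.W180.TP

open MvPolynomial Finset NumberField IsDedekindDomain Height
open Pool.Agent.W180.OP

/-- a finite place is at most `1` on integers -/
lemma fin_le_one {L : Type} [Field L] [NumberField L] (v : FinitePlace L) {b : L}
    (hb : IsIntegral ℤ b) : v b ≤ 1 := by
  have h := FinitePlace.norm_le_one L v.maximalIdeal (⟨b, hb⟩ : 𝓞 L)
  rw [FinitePlace.norm_embedding_eq] at h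
  exact h

/-- the height of a vector of algebraic integers -/
theorem int_vec {L : Type} [Field L] [NumberField L] {m : ℕ} (b : Fin m → L)
    (hb : ∀ k, IsIntegral ℤ (b k)) (R : ℝ) (hR : 1 ≤ R)
    (h : ∀ (w : InfinitePlace L) k, w (b k) ≤ R) :
    logHeight b ≤ Module.finrank ℚ L * Real.log R := by
  by_cases hb0 : b = 0
  · rw [hb0, logHeight_zero]
    exact mul_nonneg (Nat.cast_nonneg _) (Real.log_nonneg hR)
  have hm : 0 < m := by
    obtain ⟨j, -⟩ := Function.ne_iff.1 hb0
    exact Fin.pos j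
  have : Nonempty (Fin m) := ⟨⟨0, hm⟩⟩
  rw [logHeight_eq_log_mulHeight, NumberField.mulHeight_eq hb0]
  have h1 : ∏ᶠ v : FinitePlace L, ⨆ i, v (b i) ≤ 1 := by
    refine (finprod_induction (fun t : ℝ => 0 ≤ t ∧ t ≤ 1) ⟨zero_le_one, le_rfl⟩
      (fun x y hx hy => ⟨mul_nonneg hx.1 hy.1, mul_le_one₀ hx.2 hy.1 hy.2⟩) fun v => ?_).2
    exact ⟨Real.iSup_nonneg fun _ => apply_nonneg _ _, ciSup_le fun k => fin_le_one v (hb k)⟩
  have h2 : (∏ v : InfinitePlace L, (⨆ i, v (b i)) ^ v.mult) ≤ R ^ Module.finrank ℚ L := by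
    rw [← InfinitePlace.sum_mult_eq, ← Finset.prod_pow_eq_pow_sum]
    refine Finset.prod_le_prod (fun w _ => pow_nonneg (Real.iSup_nonneg fun _ => apply_nonneg _ _) _)
      fun w _ => ?_
    exact pow_le_pow_left₀ (Real.iSup_nonneg fun _ => apply_nonneg _ _) (ciSup_le (h w)) _
  have h3 : 0 < mulHeight b := mulHeight_pos b
  rw [NumberField.mulHeight_eq hb0] at h3
  have h4 : 0 ≤ ∏ v : InfinitePlace L, (⨆ i, v (b i)) ^ v.mult :=
    Finset.prod_nonneg fun w _ => pow_nonneg (Real.iSup_nonneg fun _ => apply_nonneg _ _) _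
  rw [← Real.log_pow]
  refine Real.log_le_log h3 ?_
  calc _ ≤ (∏ v : InfinitePlace L, (⨆ i, v (b i)) ^ v.mult) * 1 :=
        mul_le_mul_of_nonneg_left h1 h4
    _ ≤ _ := by rw [mul_one]; exact h2

variable {K : Type} [Field K] [NumberField K]

/-- the height over `L` of a vector over `K` -/
theorem vec_le {m : ℕ} (a : Fin m → K) : ∃ C : ℝ, 0 ≤ C ∧ ∀ (L : Type) [Field L] [NumberField L]
    [Algebra K L], logHeight (fun k => algebraMap K L (a k)) ≤ C * Module.finrank ℚ L := by
  classical
  have : Algebra.IsAlgebraic ℤ K :=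
    (IsFractionRing.comap_isAlgebraic_iff (A := ℤ) (K := ℚ) (C := K)).2 inferInstance
  obtain ⟨c, hc0, hc⟩ := Algebra.IsAlgebraic.exists_integral_multiples ℤ (Finset.univ.image a)
  set R : ℝ := 1 + ∑ v : InfinitePlace K, ∑ k, v (c • a k) with hR
  have hR1 : 1 ≤ R := by
    have : 0 ≤ ∑ v : InfinitePlace K, ∑ k, v (c • a k) :=
      Finset.sum_nonneg fun _ _ => Finset.sum_nonneg fun _ _ => apply_nonneg _ _
    linarith
  refine ⟨Real.log R, Real.log_nonneg hR1, fun L _ _ _ => ?_⟩
  have hcL : (c : L) ≠ 0 := by exact_mod_cast hc0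
  have e1 : logHeight (fun k => algebraMap K L (a k)) =
      logHeight (fun k => algebraMap K L (c • a k)) := by
    rw [← logHeight_smul_eq_logHeight (fun k => algebraMap K L (a k)) hcL]
    congr 1
    funext k
    rw [Pi.smul_apply, smul_eq_mul, zsmul_eq_mul, map_mul, map_intCast]
  rw [e1, mul_comm]
  refine int_vec _ (fun k => ?_) R hR1 fun w k => ?_
  · exact (hc (a k) (Finset.mem_image_of_mem _ (Finset.mem_univ _))).map
      (Algebra.algHom ℤ K L)
  · rw [← InfinitePlace.comap_apply]
    have h1 : (w.comap (algebraMap K L)) (c • a k) ≤ ∑ k, (w.comap (algebraMap K L)) (c • a k) :=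
      Finset.single_le_sum (f := fun k => (w.comap (algebraMap K L)) (c • a k))
        (fun _ _ => apply_nonneg _ _) (Finset.mem_univ k)
    have h2 : ∑ k, (w.comap (algebraMap K L)) (c • a k) ≤
        ∑ v : InfinitePlace K, ∑ k, v (c • a k) :=
      Finset.single_le_sum (f := fun v : InfinitePlace K => ∑ k, v (c • a k))
        (fun _ _ => Finset.sum_nonneg fun _ _ => apply_nonneg _ _) (Finset.mem_univ _)
    linarith

/-- the height of a root of a polynomial over `ℤ` -/
theorem root_int (P : Polynomial ℤ) (hP : P ≠ 0) : ∃ C : ℝ, 0 ≤ C ∧ ∀ (L : Type) [Field L]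
    [NumberField L] (u : L), Polynomial.aeval u P = 0 → logHeight ![u, 1] ≤
      C * Module.finrank ℚ L := by
  classical
  set c : ℤ := P.leadingCoeff with hc
  have hc0 : c ≠ 0 := Polynomial.leadingCoeff_ne_zero.2 hP
  set PC : Polynomial ℂ := P.map (Int.castRingHom ℂ) with hPC
  have hPC0 : PC ≠ 0 := (Polynomial.map_ne_zero_iff (RingHom.injective_int _)).2 hP
  set R : ℝ := |(c : ℝ)| * (PC.cauchyBound : ℝ) with hR
  have hcb : (1 : ℝ) ≤ PC.cauchyBound := by exact_mod_cast Polynomial.one_le_cauchyBound PC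
  have hca : (1 : ℝ) ≤ |(c : ℝ)| := by
    rw [← Int.cast_abs]
    exact_mod_cast Int.one_le_abs hc0
  have hR1 : 1 ≤ R := one_le_mul_of_one_le_of_one_le hca hcb
  refine ⟨Real.log R, Real.log_nonneg hR1, fun L _ _ u hu => ?_⟩
  have hcL : (c : L) ≠ 0 := by exact_mod_cast hc0
  rw [← logHeight_smul_eq_logHeight (![u, 1] : Fin 2 → L) hcL, mul_comm]
  have hwc : ∀ w : InfinitePlace L, w (c : L) = |(c : ℝ)| := by
    intro w
    rw [← InfinitePlace.norm_embedding_eq, map_intCast]
    exact Complex.norm_intCast c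
  refine int_vec _ (fun k => ?_) R hR1 fun w k => ?_
  · fin_cases k
    · have h1 := isIntegral_leadingCoeff_smul P u hu
      rw [zsmul_eq_mul] at h1
      simpa using h1
    · simpa using isIntegral_algebraMap (R := ℤ) (A := L) (x := c)
  · fin_cases k
    · simp only [Pi.smul_apply, smul_eq_mul]
      show w (c * u) ≤ R
      rw [map_mul, hwc]
      refine mul_le_mul_of_nonneg_left ?_ (abs_nonneg _)
      rw [← InfinitePlace.norm_embedding_eq]
      have h2 : PC.IsRoot (w.embedding u) := by
        rw [Polynomial.IsRoot.def, hPC, Polynomial.eval_map]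
        have h3 : w.embedding (Polynomial.aeval u P) =
            Polynomial.eval₂ (w.embedding.comp (algebraMap ℤ L)) (w.embedding u) P := by
          rw [Polynomial.aeval_def, Polynomial.hom_eval₂]
        rw [hu, map_zero] at h3
        rw [h3]
        congr 1
        exact RingHom.ext_int _ _
      exact_mod_cast (Polynomial.IsRoot.norm_lt_cauchyBound hPC0 h2).le
    · simp only [Pi.smul_apply, smul_eq_mul]
      show w (c * 1) ≤ R
      rw [mul_one, hwc]
      exact le_mul_of_one_le_right (abs_nonneg _) hcb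

/-- the height of a root of a polynomial over `K` -/
theorem root_K (r : Polynomial K) (hr : r ≠ 0) : ∃ C : ℝ, 0 ≤ C ∧ ∀ (L : Type) [Field L]
    [NumberField L] [Algebra K L] (u : L), Polynomial.aeval u r = 0 → logHeight ![u, 1] ≤
      C * Module.finrank ℚ L := by
  have : Algebra.IsAlgebraic ℤ K :=
    (IsFractionRing.comap_isAlgebraic_iff (A := ℤ) (K := ℚ) (C := K)).2 inferInstance
  obtain ⟨P, hP, hdvd⟩ := Polynomial.exists_dvd_map_of_isAlgebraic (R := ℤ) hr
  obtain ⟨C, hC0, hC⟩ := root_int P hP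
  refine ⟨C, hC0, fun L _ _ _ u hu => hC L u ?_⟩
  obtain ⟨g, hg⟩ := hdvd
  have h1 := congrArg (Polynomial.aeval u) hg
  rw [map_mul, hu, zero_mul, Polynomial.aeval_map_algebraMap] at h1
  exact h1

lemma wt_pos {L : Type} [Field L] [NumberField L] (p : Pl L) : 0 < wt p := by
  cases p with
  | inl w => exact Nat.cast_pos.2 w.mult_pos
  | inr v => exact zero_lt_one

lemma wt_le {L : Type} [Field L] [NumberField L] (p : Pl L) : wt p ≤ Module.finrank ℚ L := by
  cases p with
  | inl w =>
    show (w.mult : ℝ) ≤ _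
    rw [← InfinitePlace.sum_mult_eq]
    exact_mod_cast Finset.single_le_sum (f := fun w : InfinitePlace L => w.mult)
      (fun _ _ => Nat.zero_le _) (Finset.mem_univ w)
  | inr v =>
    show (1 : ℝ) ≤ _
    exact_mod_cast Module.finrank_pos

/-- one local term of the height -/
lemma one_term {L : Type} [Field L] [NumberField L] {m : ℕ} (y : Fin m → L) (j : Fin m)
    (hj : y j = 1) (p : Pl L) : wt p * Real.log (nrm (av p) y) ≤ logHeight y := by
  cases p with
  | inl w =>
    have := partial_le y j hj {w} ∅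
    rwa [Finset.sum_singleton, Finset.sum_empty, add_zero] at this
  | inr v =>
    have := partial_le y j hj ∅ {v}
    rw [Finset.sum_singleton, Finset.sum_empty, zero_add] at this
    show 1 * Real.log (nrm (fv v) y) ≤ _
    rwa [one_mul]

/-- local constants -/
theorem con_le {κ : Type} [Fintype κ] (a : κ → K) : ∃ C : ℝ, 0 ≤ C ∧ ∀ (L : Type) [Field L]
    [NumberField L] [Algebra K L] (p : Pl L),
      wt p * Real.log (1 + ∑ k, av p (algebraMap K L (a k))) ≤ C * Module.finrank ℚ L := by
  classical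
  set r := Fintype.card κ with hr
  set e := Fintype.equivFin κ with he
  obtain ⟨C, hC0, hC⟩ := vec_le (Fin.cons 1 (fun k => a (e.symm k)) : Fin (r + 1) → K)
  refine ⟨Real.log (r + 1) + C, add_nonneg (Real.log_nonneg (by
    have : (0 : ℝ) ≤ r := Nat.cast_nonneg _
    linarith)) hC0, fun L _ _ _ p => ?_⟩
  set y : Fin (r + 1) → L := fun k => algebraMap K L
    ((Fin.cons 1 (fun k => a (e.symm k)) : Fin (r + 1) → K) k) with hy
  have hy0 : y 0 = 1 := by simp [hy]
  have h1 := one_term y 0 hy0 p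
  have h2 := hC L
  have hge : 1 ≤ nrm (av p) y := by
    have := le_nrm (av p) y 0
    rwa [hy0, map_one] at this
  have h3 : 1 + ∑ k, av p (algebraMap K L (a k)) ≤ (r + 1) * nrm (av p) y := by
    have e1 : ∑ k, av p (algebraMap K L (a k)) ≤ ∑ _k : κ, nrm (av p) y := by
      refine Finset.sum_le_sum fun k _ => ?_
      have := le_nrm (av p) y (e k).succ
      simpa [hy] using this
    rw [Finset.sum_const, Finset.card_univ, nsmul_eq_mul] at e1
    linarith
  have h0 : 0 < 1 + ∑ k, av p (algebraMap K L (a k)) := by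
    have : 0 ≤ ∑ k, av p (algebraMap K L (a k)) := Finset.sum_nonneg fun _ _ => (av p).nonneg _
    linarith
  have hr0 : (0 : ℝ) < r + 1 := by positivity
  have h4 := Real.log_le_log h0 h3
  rw [Real.log_mul hr0.ne' (by linarith)] at h4
  have h5 := mul_le_mul_of_nonneg_left h4 (wt_nonneg p)
  rw [mul_add] at h5
  have h6 : wt p * Real.log (r + 1) ≤ Module.finrank ℚ L * Real.log (r + 1) :=
    mul_le_mul_of_nonneg_right (wt_le p) (Real.log_nonneg (by
      have : (0 : ℝ) ≤ r := Nat.cast_nonneg _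
      linarith))
  calc _ ≤ wt p * Real.log (r + 1) + wt p * Real.log (nrm (av p) y) := h5
    _ ≤ Module.finrank ℚ L * Real.log (r + 1) + C * Module.finrank ℚ L :=
        add_le_add h6 (h1.trans h2)
    _ = _ := by ring

end Pool.Agent.W180.TP
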