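import Pool.Agent.W180.TP.Fam

set_option autoImplicit false

/-!
Hyperplanes in general position, few places: linear forms vanishing on two strata.
-/

namespace Pool.Agent.W180.TP

open MvPolynomial Finset NumberField IsDedekindDomain Height
open Pool.Agent.W180.OP

section alg

variable {K : Type} [Field K]

/-- the linear form with coefficients `a` -/
noncomputable def lf {n : ℕ} (a : Fin n → K) : MvPolynomial (Fin n) K := ∑ j, C (a j) * X j

lemma lf_hom {n : ℕ} (a : Fin n → K) : (lf a).IsHomogeneous 1 := by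
  unfold lf
  refine IsHomogeneous.sum _ _ _ fun j _ => ?_
  have := (isHomogeneous_C (Fin n) (a j)).mul (isHomogeneous_X K j)
  simpa using this

lemma aeval_lf {L : Type} [Field L] [Algebra K L] {n : ℕ} (a : Fin n → K) (x : Fin n → L) :
    aeval x (lf a) = ∑ j, algebraMap K L (a j) * x j := by
  unfold lf
  simp

lemma lf_ne {n : ℕ} {a : Fin n → K} (ha : a ≠ 0) : lf a ≠ 0 := by
  intro h
  apply ha
  funext j
  have h1 := aeval_lf (L := K) a (Pi.single j 1)
  rw [h, map_zero] at h1
  simpa [Pi.single_apply] using h1.symm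

lemma lf_single {n : ℕ} (j : Fin n) : lf (Pi.single j (1 : K)) = X j := by
  unfold lf
  rw [Finset.sum_eq_single j]
  · simp
  · intro b _ hb
    simp [hb]
  · simp

lemma lf_mem {n q : ℕ} (l : Fin q → Fin n → K) (I : Finset (Fin q)) {M : Fin n → K}
    (h : M ∈ Submodule.span K (Set.range fun i : I => l i)) :
    lf M ∈ Ideal.span (Set.range fun i : I => lf (l i)) := by
  induction h using Submodule.span_induction with
  | mem x hx =>
    obtain ⟨i, rfl⟩ := hx
    exact Ideal.subset_span ⟨i, rfl⟩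
  | zero =>
    have : lf (0 : Fin n → K) = 0 := by simp [lf]
    rw [this]
    exact zero_mem _
  | add x y _ _ hx hy =>
    have : lf (x + y) = lf x + lf y := by
      simp [lf, add_mul, Finset.sum_add_distrib]
    rw [this]
    exact add_mem hx hy
  | smul a x _ hx =>
    have : lf (a • x) = C a * lf x := by
      simp [lf, Finset.mul_sum, mul_assoc]
    rw [this]
    exact Ideal.mul_mem_left _ _ hx

/-- general position -/
def GP {n q : ℕ} (l : Fin q → Fin n → K) : Prop :=
  ∀ I : Finset (Fin q), I.card ≤ n → LinearIndependent K (fun i : I => l i)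

lemma exists_common {n q : ℕ} {l : Fin q → Fin n → K} (hl : GP l) (I J : Finset (Fin q))
    (hI : I.card ≤ n) (hJ : J.card ≤ n) (hIJ : n < I.card + J.card) :
    ∃ M : Fin n → K, M ≠ 0 ∧ lf M ∈ Ideal.span (Set.range fun i : I => lf (l i)) ∧
      lf M ∈ Ideal.span (Set.range fun i : J => lf (l i)) := by
  classical
  set A := Submodule.span K (Set.range fun i : I => l i) with hA
  set B := Submodule.span K (Set.range fun i : J => l i) with hB
  have h1 : Module.finrank K A = I.card := by
    rw [hA, finrank_span_eq_card (hl I hI), Fintype.card_coe]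
  have h2 : Module.finrank K B = J.card := by
    rw [hB, finrank_span_eq_card (hl J hJ), Fintype.card_coe]
  have h3 := Submodule.finrank_sup_add_finrank_inf_eq A B
  have h4 : Module.finrank K (A ⊔ B : Submodule K (Fin n → K)) ≤ n := by
    have := Submodule.finrank_le (A ⊔ B)
    rwa [Module.finrank_fin_fun] at this
  have h5 : 0 < Module.finrank K (A ⊓ B : Submodule K (Fin n → K)) := by omega
  have h6 : A ⊓ B ≠ ⊥ := by
    intro h
    rw [h, finrank_bot] at h5
    exact lt_irrefl _ h5
  obtain ⟨M, hM, hM0⟩ := Submodule.exists_mem_ne_zero_of_ne_bot h6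
  exact ⟨M, hM0, lf_mem l I hM.1, lf_mem l J hM.2⟩

lemma all_mem {n q : ℕ} {l : Fin q → Fin n → K} (hl : GP l) (I : Finset (Fin q))
    (hI : I.card = n) (a : Fin n) :
    (X a : MvPolynomial (Fin n) K) ∈ Ideal.span (Set.range fun i : I => lf (l i)) := by
  classical
  rw [← lf_single a]
  apply lf_mem
  have h1 := hl I hI.le
  have h2 : Submodule.span K (Set.range fun i : I => l i) = ⊤ := by
    apply Submodule.eq_top_of_finrank_eq
    rw [finrank_span_eq_card h1, Fintype.card_coe, hI, Module.finrank_fin_fun]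
  rw [h2]
  trivial

end alg

section sort

/-- the `k`-th largest value, `k = 0, 1, …` -/
noncomputable def tk {q : ℕ} (u : Fin q → ℝ) (k : ℕ) : ℝ :=
  if h : k < q then u (Tuple.sort (fun i => - u i) ⟨k, h⟩) else 0

/-- indices of the `k` largest values -/
noncomputable def top {q : ℕ} (u : Fin q → ℝ) (k : ℕ) : Finset (Fin q) :=
  (Finset.univ.filter fun j : Fin q => (j : ℕ) < k).image (Tuple.sort (fun i => - u i))

lemma card_top {q : ℕ} (u : Fin q → ℝ) {k : ℕ} (hk : k ≤ q) : (top u k).card = k := by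
  unfold top
  rw [Finset.card_image_of_injective _ (Equiv.injective _)]
  have : (Finset.univ.filter fun j : Fin q => (j : ℕ) < k) =
      (Finset.univ : Finset (Fin k)).map (Fin.castLEEmb hk) := by
    ext j
    simp only [Finset.mem_filter, Finset.mem_univ, true_and, Finset.mem_map, Fin.castLEEmb_apply]
    constructor
    · intro h
      exact ⟨⟨j, h⟩, rfl⟩
    · rintro ⟨i, rfl⟩
      exact i.2
  rw [this, Finset.card_map, Finset.card_univ, Fintype.card_fin]

lemma tk_le {q : ℕ} (u : Fin q → ℝ) {k j : ℕ} (hj : j ≤ k + 1) (hk : k < q) {i : Fin q}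
    (hi : i ∈ top u j) : tk u k ≤ u i := by
  unfold top at hi
  obtain ⟨a, ha, rfl⟩ := Finset.mem_image.1 hi
  rw [Finset.mem_filter] at ha
  unfold tk
  rw [dif_pos hk]
  have := Tuple.monotone_sort (fun i => - u i) (show a ≤ ⟨k, hk⟩ from by
    rw [Fin.le_def]
    show (a : ℕ) ≤ k
    omega)
  simp only [Function.comp_apply] at this
  linarith

lemma sum_tk {q : ℕ} (u : Fin q → ℝ) : ∑ i, u i = ∑ k ∈ Finset.range q, tk u k := by
  rw [← Equiv.sum_comp (Tuple.sort (fun i => - u i)) u, ← Fin.sum_univ_eq_sum_range]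
  refine Finset.sum_congr rfl fun i _ => ?_
  unfold tk
  rw [dif_pos i.2]

lemma tk_nonneg {q : ℕ} {u : Fin q → ℝ} (hu : ∀ i, 0 ≤ u i) (k : ℕ) : 0 ≤ tk u k := by
  unfold tk
  split_ifs
  · exact hu _
  · exact le_rfl

lemma tk_mem {q : ℕ} (u : Fin q → ℝ) {B : ℝ} (hB : 0 ≤ B) (hu : ∀ i, u i ≤ B) (k : ℕ) :
    tk u k ≤ B := by
  unfold tk
  split_ifs
  · exact hu _
  · exact hB

end sort

variable {K : Type} [Field K] [NumberField K]

/-- a form in the ideal of `P i`, `i ∈ I`, is small where all these are small -/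
theorem near_form {n : ℕ} {ι : Type} [Fintype ι] (P : ι → MvPolynomial (Fin n) K)
    (hP : ∀ i, (P i).IsHomogeneous 1) (Q : MvPolynomial (Fin n) K) (e0 : ℕ)
    (hQ : Q.IsHomogeneous e0) (h : ∀ a, ∃ M : ℕ, X a ^ M * Q ∈ Ideal.span (Set.range P)) :
    ∃ C : ℝ, 0 ≤ C ∧ ∀ (L : Type) [Field L] [NumberField L] [Algebra K L] (p : Pl L)
      (x : Fin n → L), x ≠ 0 → aeval x Q ≠ 0 → ∀ t : ℝ, 0 ≤ t →
        (∀ i, aeval x (P i) ≠ 0 ∧ t ≤ wt p * max 0 (lam (av p) 1 (bc L (P i)) x)) →
        t ≤ wt p * max 0 (lam (av p) e0 (bc L Q) x) + C * Module.finrank ℚ L := by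
  classical
  obtain ⟨C, hC0, hC⟩ := ineq0 P (fun _ => 1) hP Q e0 hQ h
  refine ⟨C + Real.log (Fintype.card ι + 1), add_nonneg hC0 (Real.log_nonneg (by
    have : (0 : ℝ) ≤ Fintype.card ι := Nat.cast_nonneg _
    linarith)), fun L _ _ _ p x hx hQx t ht hi => ?_⟩
  obtain ⟨R, hR, h2⟩ := hC L p
  have hw := wt_pos p
  have hcard : (1 : ℝ) ≤ Fintype.card ι + 1 := by
    have : (0 : ℝ) ≤ Fintype.card ι := Nat.cast_nonneg _
    linarith
  have hub := hR.mul (UB.const p hcard)
  rcases ht.eq_or_lt with h0 | h0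
  · rw [← h0]
    exact add_nonneg (mul_nonneg hw.le (le_max_left _ _)) (mul_nonneg (add_nonneg hC0
      (Real.log_nonneg hcard)) (Nat.cast_nonneg _))
  have h3 : ∀ i, rho (av p) 1 (P i) x ≤ Real.exp (-(t / wt p)) := by
    intro i
    have h4 := (hi i).2
    have h5 : t / wt p ≤ max 0 (lam (av p) 1 (bc L (P i)) x) := by
      rw [div_le_iff₀ hw, mul_comm]
      exact h4
    have h6 : 0 < t / wt p := div_pos h0 hw
    have h7 : t / wt p ≤ lam (av p) 1 (bc L (P i)) x := by
      rcases le_max_iff.1 h5 with h | h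
      · linarith
      · exact h
    rw [lam_rho] at h7
    have h8 := rho_pos (av p) 1 (P i) hx (hi i).1
    rw [← Real.log_le_iff_le_exp h8]
    linarith
  have h4 := h2 x hx
  have h5 : ∑ i, rho (av p) 1 (P i) x ≤ Fintype.card ι * Real.exp (-(t / wt p)) := by
    have := Finset.sum_le_sum (s := Finset.univ) fun i _ => h3 i
    rwa [Finset.sum_const, Finset.card_univ, nsmul_eq_mul] at this
  have hexp := Real.exp_pos (-(t / wt p))
  have h6 : rho (av p) e0 Q x ≤ R * (Fintype.card ι + 1) * Real.exp (-(t / wt p)) := by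
    refine h4.trans ?_
    rw [mul_assoc]
    refine mul_le_mul_of_nonneg_left ?_ (by linarith [hR.1])
    linarith
  have h7 := rho_pos (av p) e0 Q hx hQx
  have h8 := Real.log_le_log h7 h6
  rw [Real.log_mul (by linarith [hub.1]) hexp.ne', Real.log_exp] at h8
  have h9 := hub.2
  rw [lam_rho]
  have h10 : - Real.log (rho (av p) e0 Q x) ≤ max 0 (- Real.log (rho (av p) e0 Q x)) :=
    le_max_right _ _
  have h11 : wt p * (t / wt p) = t := mul_div_cancel₀ t hw.ne'
  have h12 := mul_le_mul_of_nonneg_left h10 hw.le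
  have h13 := mul_le_mul_of_nonneg_left h8 hw.le
  rw [mul_add, mul_neg, h11] at h13
  linarith

end Pool.Agent.W180.TP
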