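import Pool.Agent.W180.TP.Hyp

set_option autoImplicit false

/-!
Hyperplanes in general position: the bound for the proximity function.
-/

namespace Pool.Agent.W180.TP

open MvPolynomial Finset NumberField IsDedekindDomain Height
open Pool.Agent.W180.OP

variable {K : Type} [Field K] [NumberField K]

/-- the weighted proximity to the `i`-th hyperplane at `p` -/
noncomputable def prx {n q : ℕ} (l : Fin q → Fin n → K) {L : Type} [Field L] [NumberField L]
    [Algebra K L] (x : Fin n → L) (p : Pl L) (i : Fin q) : ℝ :=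
  wt p * max 0 (lam (av p) 1 (bc L (lf (l i))) x)

omit [NumberField K] in
lemma prx_nonneg {n q : ℕ} (l : Fin q → Fin n → K) {L : Type} [Field L] [NumberField L]
    [Algebra K L] (x : Fin n → L) (p : Pl L) (i : Fin q) : 0 ≤ prx l x p i :=
  mul_nonneg (wt_pos p).le (le_max_left _ _)

/-- single hyperplanes -/
theorem prx_single {n q : ℕ} (l : Fin q → Fin n → K) :
    ∃ C : ℝ, 0 ≤ C ∧ ∀ (L : Type) [Field L] [NumberField L] [Algebra K L] (p : Pl L)
      (x : Fin n → L), x ≠ 0 → (∀ i, aeval x (lf (l i)) ≠ 0) → ∀ k,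
        tk (prx l x p) k ≤ logHeight x + C * Module.finrank ℚ L := by
  classical
  choose C hC0 hC using fun i => liou_u (lf (l i)) 1 (lf_hom (l i))
  refine ⟨∑ i, C i, Finset.sum_nonneg fun i _ => hC0 i, fun L _ _ _ p x hx hlx k => ?_⟩
  have hN : (0 : ℝ) ≤ Module.finrank ℚ L := Nat.cast_nonneg _
  refine tk_mem _ (add_nonneg (logHeight_nonneg x) (mul_nonneg (Finset.sum_nonneg fun i _ =>
    hC0 i) hN)) (fun i => ?_) k
  have h1 := hC i L {p} x hx (hlx i)
  rw [Finset.sum_singleton, Nat.cast_one, one_mul] at h1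
  have h2 : C i ≤ ∑ i, C i := Finset.single_le_sum (fun j _ => hC0 j) (Finset.mem_univ i)
  have h3 := mul_le_mul_of_nonneg_right h2 hN
  unfold prx
  linarith

/-- all but `n - 1` hyperplanes are far away -/
theorem prx_far {n q : ℕ} (l : Fin q → Fin n → K) (hl : GP l) :
    ∃ C : ℝ, 0 ≤ C ∧ ∀ (L : Type) [Field L] [NumberField L] [Algebra K L] (p : Pl L)
      (x : Fin n → L), x ≠ 0 → (∀ i, aeval x (lf (l i)) ≠ 0) → ∀ k, n ≤ k + 1 →
        tk (prx l x p) k ≤ C * Module.finrank ℚ L := by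
  classical
  have h0 : ∀ I : Finset (Fin q), ∃ C : ℝ, 0 ≤ C ∧ (I.card = n → ∀ (L : Type) [Field L]
      [NumberField L] [Algebra K L] (p : Pl L) (x : Fin n → L), x ≠ 0 →
      (∀ i, aeval x (lf (l i)) ≠ 0) → ∀ t : ℝ, 0 ≤ t → (∀ i ∈ I, t ≤ prx l x p i) →
      t ≤ C * Module.finrank ℚ L) := by
    intro I
    by_cases hI : I.card = n
    · obtain ⟨C, hC0, hC⟩ := near_form (fun i : I => lf (l i)) (fun i => lf_hom _) 1 0
        (isHomogeneous_one _ _) (fun a => ⟨1, by
          rw [pow_one, mul_one]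
          exact all_mem hl I hI a⟩)
      refine ⟨C, hC0, fun _ L _ _ _ p x hx hlx t ht h => ?_⟩
      have h1 := hC L p x hx (by rw [map_one]; exact one_ne_zero) t ht fun i =>
        ⟨hlx i, h i i.2⟩
      have h2 : lam (av p) 0 (bc L (1 : MvPolynomial (Fin n) K)) x = 0 := by
        rw [lam_rho, rho_one, Real.log_one, neg_zero]
      rwa [h2, max_self, mul_zero, zero_add] at h1
    · exact ⟨0, le_rfl, fun h => absurd h hI⟩
  choose C hC0 hC using h0
  refine ⟨∑ I, C I, Finset.sum_nonneg fun i _ => hC0 i, fun L _ _ _ p x hx hlx k hk => ?_⟩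
  have hN : (0 : ℝ) ≤ Module.finrank ℚ L := Nat.cast_nonneg _
  by_cases hkq : k < q
  · have h1 := hC (top (prx l x p) n) (card_top _ (by omega)) L p x hx hlx
      (tk (prx l x p) k) (tk_nonneg (prx_nonneg l x p) k) fun i hi => tk_le _ hk hkq hi
    have h2 : C (top (prx l x p) n) ≤ ∑ I, C I :=
      Finset.single_le_sum (fun j _ => hC0 j) (Finset.mem_univ _)
    exact h1.trans (mul_le_mul_of_nonneg_right h2 hN)
  · unfold tk
    rw [dif_neg hkq]
    exact mul_nonneg (Finset.sum_nonneg fun i _ => hC0 i) hN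

/-- two places -/
theorem prx_pair {n q : ℕ} (l : Fin q → Fin n → K) (hl : GP l) :
    ∃ (Z : Finset (MvPolynomial (Fin n) K)) (C : ℝ),
      (∀ M ∈ Z, ∃ a : Fin n → K, a ≠ 0 ∧ M = lf a) ∧ 0 ≤ C ∧
      ∀ (L : Type) [Field L] [NumberField L] [Algebra K L] (p p' : Pl L) (x : Fin n → L), x ≠ 0 →
        (∀ i, aeval x (lf (l i)) ≠ 0) → (∀ M ∈ Z, aeval x M ≠ 0) → p ≠ p' →
        ∀ k k', k + 1 ≤ n → k' + 1 ≤ n → n ≤ k + k' + 1 →
          tk (prx l x p) k + tk (prx l x p') k' ≤ logHeight x + C * Module.finrank ℚ L := by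
  classical
  have h0 : ∀ T : Finset (Fin q) × Finset (Fin q), ∃ (M : MvPolynomial (Fin n) K) (C : ℝ), 0 ≤ C ∧
      (T.1.card ≤ n ∧ T.2.card ≤ n ∧ n < T.1.card + T.2.card →
      (∃ a : Fin n → K, a ≠ 0 ∧ M = lf a) ∧ ∀ (L : Type) [Field L]
      [NumberField L] [Algebra K L] (p p' : Pl L) (x : Fin n → L), x ≠ 0 →
      (∀ i, aeval x (lf (l i)) ≠ 0) → aeval x M ≠ 0 → p ≠ p' → ∀ t t' : ℝ, 0 ≤ t → 0 ≤ t' →
      (∀ i ∈ T.1, t ≤ prx l x p i) → (∀ i ∈ T.2, t' ≤ prx l x p' i) →
      t + t' ≤ logHeight x + C * Module.finrank ℚ L) := by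
    rintro ⟨I, J⟩
    by_cases hT : I.card ≤ n ∧ J.card ≤ n ∧ n < I.card + J.card
    · obtain ⟨a, ha, h1, h2⟩ := exists_common hl I J hT.1 hT.2.1 hT.2.2
      obtain ⟨C1, hC10, hC1⟩ := near_form (fun i : I => lf (l i)) (fun i => lf_hom _) (lf a) 1
        (lf_hom a) (fun b => ⟨0, by
          rw [pow_zero, one_mul]
          exact h1⟩)
      obtain ⟨C2, hC20, hC2⟩ := near_form (fun i : J => lf (l i)) (fun i => lf_hom _) (lf a) 1
        (lf_hom a) (fun b => ⟨0, by
          rw [pow_zero, one_mul]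
          exact h2⟩)
      obtain ⟨C3, hC30, hC3⟩ := liou_u (lf a) 1 (lf_hom a)
      refine ⟨lf a, C1 + C2 + C3, by positivity, fun _ => ⟨⟨a, ha, rfl⟩, ?_⟩⟩
      intro L _ _ _ p p' x hx hlx hM hpp t t' ht ht' hI hJ
      have e1 := hC1 L p x hx hM t ht fun i => ⟨hlx i, hI i i.2⟩
      have e2 := hC2 L p' x hx hM t' ht' fun i => ⟨hlx i, hJ i i.2⟩
      have e3 := hC3 L {p, p'} x hx hM
      rw [Finset.sum_pair hpp, Nat.cast_one, one_mul] at e3
      linarith
    · exact ⟨0, 0, le_rfl, fun h => absurd h hT⟩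
  choose W C hC0 hC using h0
  obtain ⟨C', hC'0, hC'⟩ := prx_single l
  refine ⟨(Finset.univ.filter fun T : Finset (Fin q) × Finset (Fin q) =>
    T.1.card ≤ n ∧ T.2.card ≤ n ∧ n < T.1.card + T.2.card).image W, ∑ T, C T + C', ?_,
    add_nonneg (Finset.sum_nonneg fun i _ => hC0 i) hC'0, ?_⟩
  · intro M hM
    obtain ⟨T, hT, rfl⟩ := Finset.mem_image.1 hM
    exact (hC T (Finset.mem_filter.1 hT).2).1
  · intro L _ _ _ p p' x hx hlx hZ hpp k k' hk hk' hkk
    have hN : (0 : ℝ) ≤ Module.finrank ℚ L := Nat.cast_nonneg _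
    have hS0 : 0 ≤ ∑ T, C T := Finset.sum_nonneg fun i _ => hC0 i
    have e0 := mul_nonneg hS0 hN
    by_cases hkq : k < q
    · by_cases hkq' : k' < q
      · set T : Finset (Fin q) × Finset (Fin q) := (top (prx l x p) (k + 1),
          top (prx l x p') (k' + 1)) with hT
        have hT' : T.1.card ≤ n ∧ T.2.card ≤ n ∧ n < T.1.card + T.2.card := by
          rw [hT]
          simp only
          rw [card_top _ (by omega), card_top _ (by omega)]
          omega
        have h1 := (hC T hT').2 L p p' x hx hlx (hZ _ (Finset.mem_image_of_mem W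
          (Finset.mem_filter.2 ⟨Finset.mem_univ _, hT'⟩))) hpp (tk (prx l x p) k)
          (tk (prx l x p') k') (tk_nonneg (prx_nonneg l x p) k)
          (tk_nonneg (prx_nonneg l x p') k') (fun i hi => tk_le _ le_rfl hkq hi)
          (fun i hi => tk_le _ le_rfl hkq' hi)
        have h2 : C T ≤ ∑ T, C T := Finset.single_le_sum (fun j _ => hC0 j) (Finset.mem_univ _)
        have h3 := mul_le_mul_of_nonneg_right h2 hN
        have h4 := mul_nonneg hC'0 hN
        linarith
      · have h1 := hC' L p x hx hlx k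
        have h2 : tk (prx l x p') k' = 0 := by unfold tk; rw [dif_neg hkq']
        linarith
    · have h1 := hC' L p' x hx hlx k'
      have h2 : tk (prx l x p) k = 0 := by unfold tk; rw [dif_neg hkq]
      linarith

/-- **main bound**: off finitely many hyperplanes -/
theorem hyp_main {n q : ℕ} (hn : 2 ≤ n) (l : Fin q → Fin n → K) (hl : GP l) :
    ∃ (Z : Finset (MvPolynomial (Fin n) K)) (C : ℝ),
      (∀ M ∈ Z, ∃ a : Fin n → K, a ≠ 0 ∧ M = lf a) ∧ 0 ≤ C ∧
      ∀ (L : Type) [Field L] [NumberField L] [Algebra K L] (S : Finset (Pl L)) (x : Fin n → L),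
        x ≠ 0 → (∀ i, aeval x (lf (l i)) ≠ 0) → (∀ M ∈ Z, aeval x M ≠ 0) →
        ∑ p ∈ S, wt p * ∑ i, lam (av p) 1 (bc L (lf (l i))) x ≤
          n * max 1 ((S.card : ℝ) / 2) * logHeight x +
            C * (S.card + 1) * Module.finrank ℚ L := by
  classical
  obtain ⟨Z, C1, hZ, hC10, hC1⟩ := prx_pair l hl
  obtain ⟨C2, hC20, hC2⟩ := prx_single l
  obtain ⟨C3, hC30, hC3⟩ := prx_far l hl
  refine ⟨Z, n * (C1 + C2) + q * C3, hZ, by positivity, ?_⟩
  intro L _ _ _ S x hx hlx hZx
  have hN : (0 : ℝ) ≤ Module.finrank ℚ L := Nat.cast_nonneg _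
  set N : ℝ := (Module.finrank ℚ L : ℝ) with hNdef
  have hh := logHeight_nonneg x
  obtain ⟨m, rfl⟩ : ∃ m, n = m + 2 := ⟨n - 2, by omega⟩
  set U : Pl L → ℝ := fun p => ∑ k ∈ Finset.range (m + 1), tk (prx l x p) k with hU
  set H : ℝ := ((m + 2 : ℕ) : ℝ) * (logHeight x + (C1 + C2) * N) with hH
  have hH0 : 0 ≤ H := by positivity
  have hs : ∀ p k, tk (prx l x p) k ≤ logHeight x + (C1 + C2) * N := by
    intro p k
    have h1 := hC2 L p x hx hlx k
    have h2 := mul_nonneg hC10 hN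
    linarith
  have hp : ∀ p p' k k', p ≠ p' → k + 1 ≤ m + 2 → k' + 1 ≤ m + 2 → m + 2 ≤ k + k' + 1 →
      tk (prx l x p) k + tk (prx l x p') k' ≤ logHeight x + (C1 + C2) * N := by
    intro p p' k k' hpp hk hk' hkk
    have h1 := hC1 L p p' x hx hlx hZx hpp k k' hk hk' hkk
    have h2 := mul_nonneg hC20 hN
    linarith
  have hU1 : ∀ p ∈ S, U p ≤ H := by
    intro p _
    have h1 := Finset.sum_le_sum fun (k : ℕ) (_ : k ∈ Finset.range (m + 1)) => hs p k
    rw [Finset.sum_const, Finset.card_range, nsmul_eq_mul] at h1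
    refine h1.trans ?_
    rw [hH]
    refine mul_le_mul_of_nonneg_right ?_ (by positivity)
    push_cast
    linarith
  have hU2 : ∀ p ∈ S, ∀ p' ∈ S, p ≠ p' → U p + U p' ≤ H := by
    intro p _ p' _ hpp
    have e1 : U p = ∑ k ∈ Finset.range m, tk (prx l x p) (k + 1) + tk (prx l x p) 0 := by
      rw [hU]
      exact Finset.sum_range_succ' _ _
    have e2 : U p' = ∑ k ∈ Finset.range m, tk (prx l x p') (m - 1 - k + 1) +
        tk (prx l x p') 0 := by
      rw [Finset.sum_range_reflect (fun j => tk (prx l x p') (j + 1)) m]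
      rw [hU]
      exact Finset.sum_range_succ' _ _
    have e3 : ∑ k ∈ Finset.range m, tk (prx l x p) (k + 1) +
        ∑ k ∈ Finset.range m, tk (prx l x p') (m - 1 - k + 1) ≤
        m * (logHeight x + (C1 + C2) * N) := by
      rw [← Finset.sum_add_distrib]
      have := Finset.sum_le_sum (s := Finset.range m) (f := fun k => tk (prx l x p) (k + 1) +
        tk (prx l x p') (m - 1 - k + 1)) (g := fun _ => logHeight x + (C1 + C2) * N) fun k hk =>
        hp p p' (k + 1) (m - 1 - k + 1) hpp (by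
          have := Finset.mem_range.1 hk
          omega) (by
          have := Finset.mem_range.1 hk
          omega) (by
          have := Finset.mem_range.1 hk
          omega)
      rwa [Finset.sum_const, Finset.card_range, nsmul_eq_mul] at this
    have e4 := hs p 0
    have e5 := hs p' 0
    rw [e1, e2, hH]
    push_cast
    nlinarith
  have h1 := pair_sum S U H hH0 hU1 hU2
  -- the far hyperplanes
  have h2 : ∀ p ∈ S, wt p * ∑ i, lam (av p) 1 (bc L (lf (l i))) x ≤ U p + q * C3 * N := by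
    intro p _
    have a1 : wt p * ∑ i, lam (av p) 1 (bc L (lf (l i))) x ≤ ∑ i, prx l x p i := by
      rw [Finset.mul_sum]
      exact Finset.sum_le_sum fun i _ => mul_le_mul_of_nonneg_left (le_max_right _ _)
        (wt_pos p).le
    refine a1.trans ?_
    rw [sum_tk]
    have a2 : ∑ k ∈ Finset.range q, tk (prx l x p) k ≤ ∑ k ∈ Finset.range q,
        ((if k ∈ Finset.range (m + 1) then tk (prx l x p) k else 0) + C3 * N) := by
      refine Finset.sum_le_sum fun k _ => ?_
      split_ifs with hk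
      · linarith [mul_nonneg hC30 hN]
      · rw [zero_add]
        exact hC3 L p x hx hlx k (by
          rw [Finset.mem_range] at hk
          omega)
    refine a2.trans ?_
    rw [Finset.sum_add_distrib, Finset.sum_const, Finset.card_range, nsmul_eq_mul,
      ← Finset.sum_filter]
    have a3 : ∑ k ∈ (Finset.range q).filter (· ∈ Finset.range (m + 1)), tk (prx l x p) k ≤
        U p := by
      rw [hU]
      refine Finset.sum_le_sum_of_subset_of_nonneg ?_ fun k _ _ =>
        tk_nonneg (prx_nonneg l x p) k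
      intro k hk
      exact (Finset.mem_filter.1 hk).2
    linarith
  have h3 := Finset.sum_le_sum h2
  rw [Finset.sum_add_distrib, Finset.sum_const, nsmul_eq_mul] at h3
  have h4 : max 1 ((S.card : ℝ) / 2) ≤ S.card + 1 := by
    have : (0 : ℝ) ≤ S.card := Nat.cast_nonneg _
    refine max_le (by linarith) (by linarith)
  have h5 : max 1 ((S.card : ℝ) / 2) * H ≤ ((m + 2 : ℕ) : ℝ) * max 1 ((S.card : ℝ) / 2) *
      logHeight x + ((m + 2 : ℕ) : ℝ) * (C1 + C2) * (S.card + 1) * N := by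
    rw [hH]
    have a1 : (0 : ℝ) ≤ ((m + 2 : ℕ) : ℝ) * (C1 + C2) * N := by positivity
    nlinarith [mul_le_mul_of_nonneg_left h4 a1]
  have h6 : (S.card : ℝ) * (q * C3 * N) ≤ q * C3 * (S.card + 1) * N := by
    have a1 : (0 : ℝ) ≤ q * C3 * N := by positivity
    nlinarith
  calc _ ≤ _ := h3
    _ ≤ max 1 ((S.card : ℝ) / 2) * H + (S.card : ℝ) * (q * C3 * N) := by linarith
    _ ≤ _ := by
      refine (add_le_add h5 h6).trans (le_of_eq ?_)
      ring

end Pool.Agent.W180.TP
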