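import Pool.Agent.W180.TP.Ht

set_option autoImplicit false

/-!
The Liouville inequality for forms over `K`, uniform in the extension `L`.
-/

namespace Pool.Agent.W180.TP

open MvPolynomial Finset NumberField IsDedekindDomain Height
open Pool.Agent.W180.OP

section seg

variable {K : Type} [Field K]

lemma monomial_seg {n : ℕ} (e : ℕ) : ∀ (m : Fin n →₀ ℕ), m.degree = e →
    ∃ j : Fin e → Fin n, (monomial m (1 : K)) = ∏ k, X (j k) := by
  classical
  induction e with
  | zero =>
    intro m hm
    have hm0 : m = 0 := by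
      rwa [Finsupp.degree_eq_zero_iff] at hm
    subst hm0
    exact ⟨Fin.elim0, by simp⟩
  | succ e ih =>
    intro m hm
    have h1 : ∃ i, m i ≠ 0 := by
      by_contra hcon
      push Not at hcon
      have : m = 0 := Finsupp.ext hcon
      rw [this, map_zero] at hm
      omega
    obtain ⟨i, hi⟩ := h1
    have h2 : m = Finsupp.single i 1 + (m - Finsupp.single i 1) := by
      rw [add_tsub_cancel_of_le]
      rw [Finsupp.single_le_iff]
      exact Nat.one_le_iff_ne_zero.2 hi
    obtain ⟨j, hj⟩ := ih (m - Finsupp.single i 1) (by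
      rw [h2, map_add, Finsupp.degree_single] at hm
      omega)
    refine ⟨Fin.cons i j, ?_⟩
    rw [Fin.prod_univ_succ]
    simp only [Fin.cons_zero, Fin.cons_succ]
    rw [← hj, X, monomial_mul, one_mul, ← h2]

lemma form_seg {n e : ℕ} (G : MvPolynomial (Fin n) K) (hG : G.IsHomogeneous e) :
    ∃ c : (Fin e → Fin n) → K, G = ∑ j, C (c j) * ∏ k, X (j k) := by
  classical
  by_cases hG0 : G = 0
  · exact ⟨0, by simp [hG0]⟩
  have hdeg : ∀ m ∈ G.support, m.degree = e := by
    intro m hm
    have := hG (MvPolynomial.mem_support_iff.1 hm)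
    exact (DFunLike.congr_fun (Finsupp.degree_eq_weight_one (σ := Fin n) (R := ℕ)) m).trans this
  obtain ⟨m0, hm0⟩ : G.support.Nonempty := by
    rw [Finset.nonempty_iff_ne_empty, Ne, MvPolynomial.support_eq_empty]
    exact hG0
  obtain ⟨j0, -⟩ := monomial_seg (K := K) e m0 (hdeg m0 hm0)
  have h1 : ∀ m : Fin n →₀ ℕ, ∃ j : Fin e → Fin n, m ∈ G.support →
      (monomial m (1 : K)) = ∏ k, X (j k) := by
    intro m
    by_cases hm : m ∈ G.support
    · obtain ⟨j, hj⟩ := monomial_seg (K := K) e m (hdeg m hm)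
      exact ⟨j, fun _ => hj⟩
    · exact ⟨j0, fun h => absurd h hm⟩
  choose J hJ using h1
  refine ⟨fun j => ∑ m ∈ G.support, if J m = j then G.coeff m else 0, ?_⟩
  conv_lhs => rw [G.as_sum]
  simp only [map_sum, Finset.sum_mul]
  rw [Finset.sum_comm]
  refine Finset.sum_congr rfl fun m hm => ?_
  rw [Finset.sum_eq_single (J m)]
  · rw [if_pos rfl, ← hJ m hm, C_mul_monomial, mul_one]
  · intro j _ hj
    rw [if_neg hj.symm, C_0, zero_mul]
  · intro h
    exact absurd (Finset.mem_univ _) h

end seg

variable {K : Type} [Field K] [NumberField K]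

/-- the height of the value of a linear map -/
theorem lin_le {m n : ℕ} (A : Fin m → Fin n → K) : ∃ C : ℝ, 0 ≤ C ∧ ∀ (L : Type) [Field L]
    [NumberField L] [Algebra K L] (x : Fin n → L),
      logHeight (fun j => ∑ i, algebraMap K L (A j i) * x i) ≤
        logHeight x + C * Module.finrank ℚ L := by
  classical
  set e := Fintype.equivFin (Fin m × Fin n) with he
  obtain ⟨C, hC0, hC⟩ := vec_le (fun k => A (e.symm k).1 (e.symm k).2)
  refine ⟨Real.log n + C, add_nonneg (Real.log_natCast_nonneg n) hC0, fun L _ _ _ x => ?_⟩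
  have h1 := logHeight_linearMap_apply_le (fun t : Fin m × Fin n => algebraMap K L (A t.1 t.2)) x
  have h2 : logHeight (fun t : Fin m × Fin n => algebraMap K L (A t.1 t.2)) =
      logHeight (fun k => algebraMap K L (A (e.symm k).1 (e.symm k).2)) :=
    (logHeight_comp_equiv e.symm (fun t : Fin m × Fin n => algebraMap K L (A t.1 t.2))).symm
  have h3 := hC L
  rw [h2, totalWeight_eq_finrank, Nat.card_fin] at h1
  refine h1.trans ?_
  nlinarith

lemma partial_le' {L : Type} [Field L] [NumberField L] {m : ℕ} (y : Fin m → L) (j : Fin m)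
    (hj : y j = 1) (S : Finset (Pl L)) :
    ∑ p ∈ S, wt p * Real.log (nrm (av p) y) ≤ logHeight y := by
  have h := partial_le y j hj S.toLeft S.toRight
  rw [← Finset.toLeft_disjSum_toRight (u := S), Finset.sum_disjSum]
  have e1 : ∑ v ∈ S.toRight, wt (Sum.inr v : Pl L) * Real.log (nrm (av (Sum.inr v : Pl L)) y) =
      ∑ v ∈ S.toRight, Real.log (nrm (fv v) y) := Finset.sum_congr rfl fun v _ => one_mul _
  rw [e1]
  exact h

/-- the Liouville inequality, uniform in `L` -/
theorem liou_u {n : ℕ} (G : MvPolynomial (Fin n) K) (e : ℕ) (hG : G.IsHomogeneous e) :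
    ∃ C : ℝ, 0 ≤ C ∧ ∀ (L : Type) [Field L] [NumberField L] [Algebra K L] (S : Finset (Pl L))
      (x : Fin n → L), x ≠ 0 → aeval x G ≠ 0 →
      ∑ p ∈ S, wt p * max 0 (lam (av p) e (bc L G) x) ≤
        e * logHeight x + C * Module.finrank ℚ L := by
  classical
  obtain ⟨c, hc⟩ := form_seg G hG
  set r := Fintype.card (Fin e → Fin n) with hr
  set E : (Fin e → Fin n) ≃ Fin r := Fintype.equivFin (Fin e → Fin n) with hE
  set A : Fin (r + 1) → Fin r → K := Fin.cons (fun k => c (E.symm k)) fun i k =>
    if i = k then 1 else 0 with hA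
  obtain ⟨C, hC0, hC⟩ := lin_le A
  refine ⟨C, hC0, fun L _ _ _ S x hx hGx => ?_⟩
  set v : (Fin e → Fin n) → L := fun j => ∏ k, x (j k) with hv
  have hvh : logHeight v = e * logHeight x := by
    have := logHeight_fun_prod_eq (K := L) (α := Fin e) (ι := fun _ => Fin n) (x := fun _ => x)
      (fun _ => hx)
    rw [Finset.sum_const, Finset.card_univ, Fintype.card_fin, nsmul_eq_mul] at this
    exact this
  have hGv : aeval x G = ∑ j, algebraMap K L (c j) * v j := by
    conv_lhs => rw [hc]
    simp [hv]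
  set v' : Fin r → L := fun k => v (E.symm k) with hv'
  have hv'h : logHeight v' = e * logHeight x := by
    rw [← hvh]
    exact logHeight_comp_equiv E.symm v
  set y0 : Fin (r + 1) → L := fun j => ∑ i, algebraMap K L (A j i) * v' i with hy0
  have h00 : y0 0 = aeval x G := by
    rw [hGv]
    simp only [hy0, hA, Fin.cons_zero, hv']
    exact (Equiv.sum_comp E.symm (fun j => algebraMap K L (c j) * v j))
  have h0s : ∀ k, y0 (Fin.succ k) = v' k := by
    intro k
    simp [hy0, hA]
  set y : Fin (r + 1) → L := (aeval x G)⁻¹ • y0 with hy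
  have hy1 : y 0 = 1 := by
    simp only [hy, Pi.smul_apply, smul_eq_mul, h00]
    exact inv_mul_cancel₀ hGx
  have h1 := partial_le' y 0 hy1 S
  have h2 : logHeight y = logHeight y0 := logHeight_smul_eq_logHeight _ (inv_ne_zero hGx)
  have h3 := hC L v'
  have key : ∀ f : AbsoluteValue L ℝ, max 0 (lam f e (bc L G) x) ≤ Real.log (nrm f y) := by
    intro f
    have hge : 1 ≤ nrm f y := by
      have := le_nrm f y 0
      rwa [hy1, map_one] at this
    refine max_le (Real.log_nonneg hge) ?_
    have hn : 0 < n := by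
      obtain ⟨j, _⟩ := Function.ne_iff.1 hx
      exact Fin.pos j
    obtain ⟨b, hb⟩ := exists_nrm f hn x
    have h4 : f (y (E fun _ => b).succ) = nrm f x ^ e / f (eval x (bc L G)) := by
      have : y (E fun _ => b).succ = (aeval x G)⁻¹ * x b ^ e := by
        simp [hy, h0s, hv', hv]
      rw [this, map_mul, map_inv₀, map_pow, hb, eval_bc]
      ring
    have h5 := le_nrm f y (E fun _ => b).succ
    rw [h4] at h5
    exact Real.log_le_log (div_pos (pow_pos (nrm_pos f hx) _) (f.pos_iff.2 (by
      rw [eval_bc]; exact hGx))) h5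
  calc _ ≤ ∑ p ∈ S, wt p * Real.log (nrm (av p) y) :=
        sum_le_sum fun p _ => mul_le_mul_of_nonneg_left (key (av p)) (wt_nonneg p)
    _ ≤ logHeight y := h1
    _ ≤ _ := by rw [h2]; exact h3.trans (by rw [hv'h])

end Pool.Agent.W180.TP
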