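import Pool.Agent.W180.TP.Lio

set_option autoImplicit false

/-!
Local inequalities on a projective scheme, uniform in the extension `L` and in the place.
-/

namespace Pool.Agent.W180.TP

open MvPolynomial Finset NumberField IsDedekindDomain Height
open Pool.Agent.W180.OP

/-- the normalised absolute value of a form -/
noncomputable def rho {K L : Type} [Field K] [Field L] [Algebra K L] (f : AbsoluteValue L ℝ) {n : ℕ}
    (d : ℕ) (F : MvPolynomial (Fin n) K) (x : Fin n → L) : ℝ := f (aeval x F) / nrm f x ^ d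

section rho

variable {K L : Type} [Field K] [Field L] [Algebra K L] (f : AbsoluteValue L ℝ) {n : ℕ}

lemma rho_nonneg (d : ℕ) (F : MvPolynomial (Fin n) K) (x : Fin n → L) : 0 ≤ rho f d F x :=
  div_nonneg (f.nonneg _) (pow_nonneg (nrm_nonneg f x) _)

lemma rho_pos (d : ℕ) (F : MvPolynomial (Fin n) K) {x : Fin n → L} (hx : x ≠ 0)
    (hF : aeval x F ≠ 0) : 0 < rho f d F x :=
  div_pos (f.pos_iff.2 hF) (pow_pos (nrm_pos f hx) _)

lemma lam_rho (d : ℕ) (F : MvPolynomial (Fin n) K) (x : Fin n → L) :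
    lam f d (bc L F) x = - Real.log (rho f d F x) := by
  unfold lam rho
  rw [eval_bc, ← Real.log_inv, inv_div]

lemma rho_mul (d e : ℕ) (F G : MvPolynomial (Fin n) K) (x : Fin n → L) :
    rho f (d + e) (F * G) x = rho f d F x * rho f e G x := by
  unfold rho
  rw [map_mul, map_mul, pow_add, mul_div_mul_comm]

lemma rho_one (x : Fin n → L) : rho f 0 (1 : MvPolynomial (Fin n) K) x = 1 := by
  unfold rho
  rw [map_one, map_one, pow_zero, div_one]

lemma rho_pow (d μ : ℕ) (F : MvPolynomial (Fin n) K) (x : Fin n → L) :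
    rho f (d * μ) (F ^ μ) x = rho f d F x ^ μ := by
  unfold rho
  rw [map_pow, map_pow, pow_mul, div_pow]

lemma rho_prod {ι : Type} (s : Finset ι) (F : ι → MvPolynomial (Fin n) K) (x : Fin n → L) :
    rho f s.card (∏ i ∈ s, F i) x = ∏ i ∈ s, rho f 1 (F i) x := by
  unfold rho
  rw [map_prod, map_prod, Finset.prod_div_distrib, Finset.prod_const, pow_one]

end rho

/-- a bound for a constant `R` which is uniform in `L` and in the place -/
def UB (C : ℝ) {L : Type} [Field L] [NumberField L] (p : Pl L) (R : ℝ) : Prop :=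
  1 ≤ R ∧ wt p * Real.log R ≤ C * Module.finrank ℚ L

lemma UB.mul {C C' : ℝ} {L : Type} [Field L] [NumberField L] {p : Pl L} {R R' : ℝ}
    (h : UB C p R) (h' : UB C' p R') : UB (C + C') p (R * R') := by
  refine ⟨one_le_mul_of_one_le_of_one_le h.1 h'.1, ?_⟩
  rw [Real.log_mul (by linarith [h.1]) (by linarith [h'.1]), mul_add, add_mul]
  exact add_le_add h.2 h'.2

lemma UB.pow {C : ℝ} {L : Type} [Field L] [NumberField L] {p : Pl L} {R : ℝ}
    (h : UB C p R) (r : ℕ) : UB (r * C) p (R ^ r) := by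
  refine ⟨one_le_pow₀ h.1, ?_⟩
  rw [Real.log_pow]
  have := mul_le_mul_of_nonneg_left h.2 (Nat.cast_nonneg (α := ℝ) r)
  linarith

lemma UB.const {L : Type} [Field L] [NumberField L] (p : Pl L) {c : ℝ} (hc : 1 ≤ c) :
    UB (Real.log c) p c := by
  refine ⟨hc, ?_⟩
  rw [mul_comm]
  exact mul_le_mul_of_nonneg_left (wt_le p) (Real.log_nonneg hc)

lemma UB.prod {ι : Type} (s : Finset ι) {C : ι → ℝ} {L : Type} [Field L] [NumberField L]
    {p : Pl L} {R : ι → ℝ} (h : ∀ i ∈ s, UB (C i) p (R i)) :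
    UB (∑ i ∈ s, C i) p (∏ i ∈ s, R i) := by
  classical
  induction s using Finset.induction_on with
  | empty =>
    rw [Finset.sum_empty, Finset.prod_empty]
    exact ⟨le_rfl, by simp⟩
  | insert a s ha ih =>
    rw [Finset.sum_insert ha, Finset.prod_insert ha]
    exact (h a (Finset.mem_insert_self _ _)).mul
      (ih fun i hi => h i (Finset.mem_insert_of_mem hi))

lemma UB.le_prod {ι : Type} {s : Finset ι} {C : ι → ℝ} {L : Type} [Field L] [NumberField L]
    {p : Pl L} {R : ι → ℝ} (h : ∀ i ∈ s, UB (C i) p (R i)) {i : ι} (hi : i ∈ s) :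
    R i ≤ ∏ i ∈ s, R i := by
  classical
  rw [← Finset.mul_prod_erase s R hi]
  exact le_mul_of_one_le_right (by linarith [(h i hi).1])
    (UB.prod (s.erase i) fun j hj => h j (Finset.mem_of_mem_erase hj)).1

variable {K : Type} [Field K] [NumberField K]

/-- if `X a ^ M * Q` is in the ideal of the `P i` and `G k` then on `G = 0` the form `Q` is
small where all `P i` are small -/
theorem ineq {n : ℕ} {ι κ : Type} [Fintype ι] [Fintype κ] (P : ι → MvPolynomial (Fin n) K)
    (e : ι → ℕ) (hP : ∀ i, (P i).IsHomogeneous (e i)) (G : κ → MvPolynomial (Fin n) K)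
    (g : κ → ℕ) (hG : ∀ k, (G k).IsHomogeneous (g k)) (Q : MvPolynomial (Fin n) K) (e0 : ℕ)
    (hQ : Q.IsHomogeneous e0)
    (h : ∀ a, ∃ M : ℕ, X a ^ M * Q ∈ Ideal.span (Set.range (Sum.elim P G))) :
    ∃ C : ℝ, 0 ≤ C ∧ ∀ (L : Type) [Field L] [NumberField L] [Algebra K L] (p : Pl L),
      ∃ R : ℝ, UB C p R ∧ ∀ x : Fin n → L, x ≠ 0 → (∀ k, aeval x (G k) = 0) →
        rho (av p) e0 Q x ≤ R * ∑ i, rho (av p) (e i) (P i) x := by
  classical
  -- homogeneous identities
  have h1 : ∀ a, ∃ (M : ℕ) (A : ι → MvPolynomial (Fin n) K) (B : κ → MvPolynomial (Fin n) K),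
      (∀ i, e i ≤ M + e0) ∧ (∀ i, (A i).IsHomogeneous (M + e0 - e i)) ∧
      X a ^ M * Q = ∑ i, A i * P i + ∑ k, B k * G k := by
    intro a
    obtain ⟨M, hM⟩ := h a
    obtain ⟨A, hA⟩ := Ideal.mem_span_range_iff_exists_fun.1 hM
    rw [Fintype.sum_sum_type] at hA
    simp only [Sum.elim_inl, Sum.elim_inr] at hA
    set M' : ℕ := M + (∑ i, e i + ∑ k, g k) with hM'
    have he : ∀ i, e i ≤ M' + e0 := fun i => by
      have := Finset.single_le_sum (f := e) (fun _ _ => Nat.zero_le _) (Finset.mem_univ i)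
      omega
    have hg : ∀ k, g k ≤ M' + e0 := fun k => by
      have := Finset.single_le_sum (f := g) (fun _ _ => Nat.zero_le _) (Finset.mem_univ k)
      omega
    have h2 : (X a : MvPolynomial (Fin n) K) ^ M' * Q =
        ∑ i, (X a ^ (M' - M) * A (Sum.inl i)) * P i +
          ∑ k, (X a ^ (M' - M) * A (Sum.inr k)) * G k := by
      have e1 : (X a : MvPolynomial (Fin n) K) ^ M' * Q =
          X a ^ (M' - M) * (X a ^ M * Q) := by
        rw [← mul_assoc, ← pow_add]
        congr 2
        omega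
      rw [e1, ← hA, mul_add, Finset.mul_sum, Finset.mul_sum]
      simp only [mul_assoc]
    refine ⟨M', fun i => homogeneousComponent (M' + e0 - e i) (X a ^ (M' - M) * A (Sum.inl i)),
      fun k => homogeneousComponent (M' + e0 - g k) (X a ^ (M' - M) * A (Sum.inr k)), he,
      fun i => homogeneousComponent_isHomogeneous _ _, ?_⟩
    have h3 : homogeneousComponent (M' + e0) ((X a : MvPolynomial (Fin n) K) ^ M' * Q) =
        X a ^ M' * Q :=
      homogeneousComponent_eq_self (by
        have := ((isHomogeneous_X K a).pow M').mul hQ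
        simpa using this)
    rw [← h3, h2, map_add, map_sum, map_sum]
    congr 1
    · refine Finset.sum_congr rfl fun i _ => ?_
      have h5 := homComp_mul (X a ^ (M' - M) * A (Sum.inl i)) (P i) (M' + e0 - e i) (e i) (hP i)
      rwa [Nat.sub_add_cancel (he i)] at h5
    · refine Finset.sum_congr rfl fun k _ => ?_
      have h5 := homComp_mul (X a ^ (M' - M) * A (Sum.inr k)) (G k) (M' + e0 - g k) (g k) (hG k)
      rwa [Nat.sub_add_cancel (hg k)] at h5
  choose M A B hle hA hid using h1
  -- the constant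
  set T : Finset (Fin n →₀ ℕ) := Finset.univ.biUnion fun t : Fin n × ι => (A t.1 t.2).support
    with hT
  obtain ⟨C, hC0, hC⟩ := con_le (κ := (Fin n × ι) × T)
    (fun k => (A k.1.1 k.1.2).coeff k.2.1)
  refine ⟨C, hC0, fun L _ _ _ p => ?_⟩
  set f := av p with hf
  set s : ℝ := ∑ k : (Fin n × ι) × T, f (algebraMap K L ((A k.1.1 k.1.2).coeff k.2.1)) with hs
  have hs0 : 0 ≤ s := Finset.sum_nonneg fun _ _ => f.nonneg _
  set R : ℝ := 1 + s with hR
  refine ⟨R, ⟨by linarith, hC L p⟩, fun x hx hGx => ?_⟩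
  have hcs : ∀ a i, cs f (bc L (A a i)) ≤ R := by
    intro a i
    have e1 : cs f (bc L (A a i)) ≤ ∑ m ∈ T, f (algebraMap K L ((A a i).coeff m)) := by
      unfold cs
      have hsub : (bc L (A a i)).support ⊆ T := by
        intro m hm
        rw [hT, Finset.mem_biUnion]
        refine ⟨(a, i), Finset.mem_univ _, ?_⟩
        rw [MvPolynomial.mem_support_iff] at hm ⊢
        intro h0
        apply hm
        show coeff m (map (algebraMap K L) (A a i)) = 0
        rw [coeff_map]
        show algebraMap K L (coeff m (A (a, i).1 (a, i).2)) = 0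
        rw [h0, map_zero]
      refine (Finset.sum_le_sum_of_subset_of_nonneg hsub fun _ _ _ => f.nonneg _).trans
        (le_of_eq ?_)
      refine Finset.sum_congr rfl fun m _ => ?_
      rw [bc, coeff_map]
    have e2 : ∑ m ∈ T, f (algebraMap K L ((A a i).coeff m)) ≤ s := by
      rw [hs, Fintype.sum_prod_type]
      have e3 := Finset.single_le_sum (f := fun t : Fin n × ι =>
        ∑ m : T, f (algebraMap K L ((A t.1 t.2).coeff m.1)))
        (fun _ _ => Finset.sum_nonneg fun _ _ => f.nonneg _) (Finset.mem_univ (a, i))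
      refine le_trans (le_of_eq ?_) e3
      exact (Finset.sum_coe_sort T (fun m => f (algebraMap K L ((A a i).coeff m)))).symm
    linarith
  have hn : 0 < n := by
    obtain ⟨j, _⟩ := Function.ne_iff.1 hx
    exact Fin.pos j
  obtain ⟨a, ha⟩ := exists_nrm f hn x
  have hpos := nrm_pos f hx
  have h6 : f (aeval x Q) * nrm f x ^ M a ≤ ∑ i, f (aeval x (A a i)) * f (aeval x (P i)) := by
    have e1 := congrArg (aeval x) (hid a)
    simp only [map_mul, map_pow, aeval_X, map_add, map_sum, hGx, mul_zero,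
      Finset.sum_const_zero, add_zero] at e1
    have e2 : f (aeval x Q) * nrm f x ^ M a = f (x a ^ M a * aeval x Q) := by
      rw [map_mul, map_pow, ha, mul_comm]
    rw [e2, e1]
    refine (f.sum_le _ _).trans (le_of_eq ?_)
    exact Finset.sum_congr rfl fun i _ => map_mul _ _ _
  have h7 : ∀ i, f (aeval x (A a i)) * f (aeval x (P i)) ≤
      R * (nrm f x ^ (M a + e0) * rho f (e i) (P i) x) := by
    intro i
    have e1 : f (aeval x (A a i)) ≤ R * nrm f x ^ (M a + e0 - e i) := by
      rw [← eval_bc]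
      refine (abv_mv f _ (bc_hom (hA a i)) x).trans ?_
      exact mul_le_mul_of_nonneg_right (hcs a i) (pow_nonneg hpos.le _)
    have e2 : f (aeval x (P i)) = nrm f x ^ (e i) * rho f (e i) (P i) x := by
      unfold rho
      rw [mul_div_cancel₀ _ (pow_pos hpos _).ne']
    calc f (aeval x (A a i)) * f (aeval x (P i)) ≤
        (R * nrm f x ^ (M a + e0 - e i)) * (nrm f x ^ (e i) * rho f (e i) (P i) x) := by
          rw [e2]
          exact mul_le_mul_of_nonneg_right e1
            (mul_nonneg (pow_nonneg hpos.le _) (rho_nonneg f _ _ _))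
      _ = R * ((nrm f x ^ (M a + e0 - e i) * nrm f x ^ (e i)) * rho f (e i) (P i) x) := by ring
      _ = _ := by rw [← pow_add, Nat.sub_add_cancel (hle a i)]
  have h8 : f (aeval x Q) * nrm f x ^ M a ≤
      R * (nrm f x ^ (M a + e0) * ∑ i, rho f (e i) (P i) x) := by
    refine h6.trans ?_
    rw [Finset.mul_sum, Finset.mul_sum]
    exact Finset.sum_le_sum fun i _ => h7 i
  unfold rho at h8 ⊢
  rw [div_le_iff₀ (pow_pos hpos _)]
  have h9 : 0 < nrm f x ^ M a := pow_pos hpos _
  rw [pow_add] at h8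
  refine le_of_mul_le_mul_right ?_ h9
  calc _ ≤ _ := h8
    _ = _ := by ring

end Pool.Agent.W180.TP
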