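import Pool.Agent.W180.TP.Fam

set_option autoImplicit false

/-!
The main inequality off the lines through two common points.
-/

namespace Pool.Agent.W180.TP

open MvPolynomial Finset NumberField IsDedekindDomain Height
open Pool.Agent.W180.OP
open scoped LinearAlgebra.Projectivization

variable {K : Type} [Field K] [NumberField K]

/-- distances to common points at two places -/
theorem two_pts {n : ℕ} (T : Finset (ℙ K (Fin n → K))) :
    ∃ C : ℝ, 0 ≤ C ∧ ∀ (L : Type) [Field L] [NumberField L] [Algebra K L] (x : Fin n → L),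
      x ≠ 0 →
      (∀ y ∈ T, ∀ y' ∈ T, ¬ ∃ s t : L, x = fun b => s * algebraMap K L (y.rep b) +
        t * algebraMap K L (y'.rep b)) →
      (∀ p : Pl L, ∀ y ∈ T, max 0 (- (wt p * Real.log (del (av p) y.rep x))) ≤
        logHeight x + C * Module.finrank ℚ L) ∧
      (∀ p p' : Pl L, p ≠ p' → ∀ y ∈ T, ∀ y' ∈ T,
        max 0 (- (wt p * Real.log (del (av p) y.rep x))) +
        max 0 (- (wt p' * Real.log (del (av p') y'.rep x))) ≤
        logHeight x + C * Module.finrank ℚ L) := by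
  classical
  -- constants for all pairs
  have hA := fun (y y' : ℙ K (Fin n → K)) =>
    lin_near y.rep (fam y y') (fam_hom y y') (fam_mem y y')
  have hB := fun (y y' : ℙ K (Fin n → K)) =>
    lin_near y'.rep (fam y y') (fam_hom y y') (fam_mem' y y')
  have hL := fun (y y' : ℙ K (Fin n → K)) (t : Fin n × Fin n × Fin n) =>
    liou_u (fam y y' t) 1 (fam_hom y y' t)
  choose CA hCA0 hCA using hA
  choose CB hCB0 hCB using hB
  choose CL hCL0 hCL using hL
  set C : ℝ := ∑ t ∈ T ×ˢ T, (CA t.1 t.2 + CB t.1 t.2 + ∑ u, CL t.1 t.2 u) with hC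
  have hnn : ∀ t ∈ T ×ˢ T, 0 ≤ CA t.1 t.2 + CB t.1 t.2 + ∑ u, CL t.1 t.2 u := fun t _ =>
    add_nonneg (add_nonneg (hCA0 _ _) (hCB0 _ _)) (Finset.sum_nonneg fun u _ => hCL0 _ _ u)
  have hC0 : 0 ≤ C := Finset.sum_nonneg hnn
  have hCle : ∀ y ∈ T, ∀ y' ∈ T, ∀ u, CA y y' + CB y y' + CL y y' u ≤ C := by
    intro y hy y' hy' u
    have e1 := Finset.single_le_sum (f := fun t : (ℙ K (Fin n → K)) × (ℙ K (Fin n → K)) =>
      CA t.1 t.2 + CB t.1 t.2 + ∑ u, CL t.1 t.2 u) hnn (Finset.mk_mem_product hy hy')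
    have e2 := Finset.single_le_sum (f := fun u => CL y y' u) (fun u _ => hCL0 y y' u)
      (Finset.mem_univ u)
    simp only at e1 e2
    rw [hC]
    linarith
  refine ⟨C, hC0, fun L _ _ _ x hx hxT => ?_⟩
  set N : ℝ := (Module.finrank ℚ L : ℝ) with hN
  have hN0 : 0 ≤ N := Nat.cast_nonneg _
  have hdpos : ∀ (f : AbsoluteValue L ℝ), ∀ y ∈ T, 0 < del f y.rep x := by
    intro f y hy
    refine del_pos f y.rep_nonzero hx ?_
    rintro ⟨c, hc⟩
    refine hxT y hy y hy ⟨c, 0, ?_⟩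
    rw [hc]
    funext b
    simp
  -- one linear form
  have hone : ∀ y ∈ T, ∀ y' ∈ T, ∃ u, aeval x (fam y y' u) ≠ 0 := by
    intro y hy y' hy'
    by_contra hcon
    push Not at hcon
    exact hxT y hy y' hy' (fam_zero y y' hcon)
  have key : ∀ (p : Pl L) (y : ℙ K (Fin n → K)), y ∈ T → ∀ (M : MvPolynomial (Fin n) K) (R C' : ℝ),
      UB C' p R → aeval x M ≠ 0 → rho (av p) 1 M x ≤ R * del (av p) y.rep x →
      max 0 (- (wt p * Real.log (del (av p) y.rep x))) ≤
        wt p * max 0 (lam (av p) 1 (bc L M) x) + C' * N := by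
    intro p y hy M R C' hR hM hle
    have h1 := rho_pos (av p) 1 M hx hM
    have h2 := Real.log_le_log h1 hle
    have h3 := hdpos (av p) y hy
    rw [Real.log_mul (by linarith [hR.1]) h3.ne'] at h2
    rw [lam_rho]
    have h4 := mul_le_mul_of_nonneg_left h2 (wt_nonneg p)
    have h5 := hR.2
    have h6 := mul_le_mul_of_nonneg_left (le_max_right 0 (- Real.log (rho (av p) 1 M x)))
      (wt_nonneg p)
    have h7 := mul_le_mul_of_nonneg_left (le_max_left 0 (- Real.log (rho (av p) 1 M x)))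
      (wt_nonneg p)
    have h8 : 0 ≤ C' * N := by
      refine le_trans ?_ h5
      exact mul_nonneg (wt_nonneg p) (Real.log_nonneg hR.1)
    rw [mul_zero] at h7
    refine max_le (by linarith) ?_
    rw [mul_add] at h4
    rw [mul_neg] at h6
    linarith
  refine ⟨fun p y hy => ?_, fun p p' hpp y hy y' hy' => ?_⟩
  · obtain ⟨u, hu⟩ := hone y hy y hy
    obtain ⟨R, hR, hRx⟩ := hCA y y L p
    have h1 := key p y hy (fam y y u) R _ hR hu (hRx x hx u)
    have h2 := hCL y y u L {p} x hx hu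
    rw [Finset.sum_singleton] at h2
    have h3 := hCle y hy y hy u
    have h4 := mul_le_mul_of_nonneg_right h3 hN0
    have h5 := mul_nonneg (hCB0 y y) hN0
    push_cast at h2
    linarith [add_mul (CA y y + CB y y) (CL y y u) N, add_mul (CA y y) (CB y y) N]
  · obtain ⟨u, hu⟩ := hone y hy y' hy'
    obtain ⟨R, hR, hRx⟩ := hCA y y' L p
    obtain ⟨R', hR', hRx'⟩ := hCB y y' L p'
    have h1 := key p y hy (fam y y' u) R _ hR hu (hRx x hx u)
    have h1' := key p' y' hy' (fam y y' u) R' _ hR' hu (hRx' x hx u)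
    have h2 := hCL y y' u L {p, p'} x hx hu
    rw [Finset.sum_pair hpp] at h2
    have h3 := hCle y hy y' hy' u
    have h4 := mul_le_mul_of_nonneg_right h3 hN0
    push_cast at h2
    linarith [add_mul (CA y y' + CB y y') (CL y y' u) N, add_mul (CA y y') (CB y y') N]

/-- the main inequality: on `G = 0`, off the lines through two common points, one of more than
`|S|` forms is not small at `S` -/
theorem main {n q : ℕ} {κ : Type} [Fintype κ] (G : κ → MvPolynomial (Fin n) K)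
    (g : κ → ℕ) (hG : ∀ k, (G k).IsHomogeneous (g k)) (F : Fin q → MvPolynomial (Fin n) K)
    (d : Fin q → ℕ) (hF : ∀ i, (F i).IsHomogeneous (d i)) (μ : ℕ)
    (hred : ∀ i j, i ≠ j → ∀ a,
      ∀ Q ∈ (Ideal.span (Set.range (Sum.elim ![F i, F j] G))).radical ^ μ,
      ∃ M : ℕ, X a ^ M * Q ∈ Ideal.span (Set.range (Sum.elim ![F i, F j] G)))
    (T : Finset (ℙ K (Fin n → K)))
    (hT : ∀ i j, i ≠ j → ∀ (L : Type) [Field L] [Algebra K L] (x : Fin n → L), x ≠ 0 →
      aeval x (F i) = 0 → aeval x (F j) = 0 → (∀ k, aeval x (G k) = 0) →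
        ∃ y ∈ T, ∃ c : L, x = c • fun b => algebraMap K L (y.rep b)) :
    ∃ C : ℝ, 0 ≤ C ∧ ∀ (L : Type) [Field L] [NumberField L] [Algebra K L] (S : Finset (Pl L)),
      S.card < q → ∀ x : Fin n → L, x ≠ 0 → (∀ k, aeval x (G k) = 0) →
      (∀ i, aeval x (F i) ≠ 0) →
      (∀ y ∈ T, ∀ y' ∈ T, ¬ ∃ s t : L, x = fun b => s * algebraMap K L (y.rep b) +
        t * algebraMap K L (y'.rep b)) →
      ∃ i, ∑ p ∈ S, wt p * lam (av p) (d i) (bc L (F i)) x ≤
        μ * (max 1 ((S.card : ℝ) / 2) * logHeight x) + C * Module.finrank ℚ L := by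
  classical
  obtain ⟨C0, hC00, hC0⟩ := two_pts T
  have hnear : ∀ t : Fin q × Fin q, ∃ C : ℝ, 0 ≤ C ∧ ∀ (L : Type) [Field L] [NumberField L]
      [Algebra K L] (p : Pl L), ∃ R : ℝ, UB C p R ∧ (t.1 ≠ t.2 → ∀ x : Fin n → L, x ≠ 0 →
        (∀ k, aeval x (G k) = 0) →
        (1 ≤ R * (rho (av p) (d t.1) (F t.1) x + rho (av p) (d t.2) (F t.2) x)) ∨
        ∃ y ∈ T, del (av p) y.rep x ^ μ ≤
          R * (rho (av p) (d t.1) (F t.1) x + rho (av p) (d t.2) (F t.2) x)) := by
    intro t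
    by_cases ht : t.1 = t.2
    · exact ⟨0, le_rfl, fun L _ _ _ p => ⟨1, ⟨le_rfl, by simp⟩, fun h => absurd ht h⟩⟩
    · obtain ⟨C, hC0, hC⟩ := near ![F t.1, F t.2] ![d t.1, d t.2] (by
          intro i
          fin_cases i
          · exact hF t.1
          · exact hF t.2) G g hG μ (hred t.1 t.2 ht) T (by
          intro L _ _ x hx h1 h2
          exact hT t.1 t.2 ht L x hx (h1 0) (h1 1) h2)
      refine ⟨C, hC0, fun L _ _ _ p => ?_⟩
      obtain ⟨R, hR, h2⟩ := hC L p
      refine ⟨R, hR, fun _ x hx hGx => ?_⟩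
      have h3 := h2 x hx hGx
      rw [Fin.sum_univ_two] at h3
      exact h3
  choose C1 hC10 hC1 using hnear
  set C2 : ℝ := Real.log 2 + ∑ t, C1 t with hC2
  have hC20 : 0 ≤ C2 := add_nonneg (Real.log_nonneg one_le_two)
    (Finset.sum_nonneg fun t _ => hC10 t)
  refine ⟨q * C2 + μ * (max 1 ((q : ℝ) / 2) * C0), by positivity, ?_⟩
  intro L _ _ _ S hSq x hx hGx hFx hxT
  set N : ℝ := (Module.finrank ℚ L : ℝ) with hN
  have hN0 : 0 ≤ N := Nat.cast_nonneg _
  obtain ⟨hb1, hb2⟩ := hC0 L x hx hxT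
  have hq : 0 < q := by omega
  have hdpos : ∀ (f : AbsoluteValue L ℝ), ∀ y ∈ T, 0 < del f y.rep x := by
    intro f y hy
    refine del_pos f y.rep_nonzero hx ?_
    rintro ⟨c, hc⟩
    refine hxT y hy y hy ⟨c, 0, ?_⟩
    rw [hc]
    funext b
    simp
  -- the nearest component
  have hmin : ∀ p : Pl L, ∃ i0 : Fin q, ∀ j, rho (av p) (d i0) (F i0) x ≤
      rho (av p) (d j) (F j) x := by
    intro p
    have : Nonempty (Fin q) := ⟨⟨0, hq⟩⟩
    obtain ⟨i0, -, h⟩ := Finset.exists_min_image (Finset.univ : Finset (Fin q))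
      (fun j => rho (av p) (d j) (F j) x) Finset.univ_nonempty
    exact ⟨i0, fun j => h j (Finset.mem_univ j)⟩
  choose i0 hi0 using hmin
  obtain ⟨i, hi⟩ : ∃ i, i ∉ S.image i0 := by
    by_contra hcon
    push Not at hcon
    have h1 : (Finset.univ : Finset (Fin q)) ⊆ S.image i0 := fun i _ => hcon i
    have h2 := Finset.card_le_card h1
    have h3 : (S.image i0).card ≤ S.card := Finset.card_image_le
    simp only [Finset.card_univ, Fintype.card_fin] at h2
    omega
  refine ⟨i, ?_⟩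
  -- local bounds
  have hloc : ∀ p : Pl L, ∃ U : ℝ, p ∈ S →
      (U = 0 ∨ ∃ y ∈ T, U = max 0 (- (wt p * Real.log (del (av p) y.rep x)))) ∧
      wt p * lam (av p) (d i) (bc L (F i)) x ≤ μ * U + C2 * N := by
    intro p
    by_cases hp : p ∈ S
    · have hne : i ≠ i0 p := by
        rintro rfl
        exact hi (Finset.mem_image_of_mem _ hp)
      choose R1 hR1 h1 using fun t => hC1 t L p
      have hub : UB C2 p (2 * ∏ t, R1 t) :=
        (UB.const p one_le_two).mul (UB.prod Finset.univ fun t _ => hR1 t)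
      have hRle : R1 (i, i0 p) ≤ ∏ t, R1 t := UB.le_prod (fun t _ => hR1 t) (Finset.mem_univ _)
      have hri := rho_pos (av p) (d i) (F i) hx (hFx i)
      have hr0 := hi0 p i
      have hR0 := (hR1 (i, i0 p)).1
      have hbd : R1 (i, i0 p) * (rho (av p) (d i) (F i) x +
          rho (av p) (d (i0 p)) (F (i0 p)) x) ≤ (2 * ∏ t, R1 t) * rho (av p) (d i) (F i) x := by
        calc _ ≤ R1 (i, i0 p) * (rho (av p) (d i) (F i) x + rho (av p) (d i) (F i) x) :=
              mul_le_mul_of_nonneg_left (by linarith) (by linarith)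
          _ = (2 * R1 (i, i0 p)) * rho (av p) (d i) (F i) x := by ring
          _ ≤ _ := mul_le_mul_of_nonneg_right (by linarith) hri.le
      have hub0 : (0 : ℝ) < 2 * ∏ t, R1 t := by linarith [hub.1]
      rw [lam_rho]
      rcases h1 (i, i0 p) hne x hx hGx with h | ⟨y, hy, h⟩
      · refine ⟨0, fun _ => ⟨Or.inl rfl, ?_⟩⟩
        have h2 := Real.log_le_log one_pos (h.trans hbd)
        rw [Real.log_one, Real.log_mul hub0.ne' hri.ne'] at h2
        have h3 := mul_le_mul_of_nonneg_left h2 (wt_nonneg p)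
        have h4 := hub.2
        rw [mul_zero, mul_add] at h3
        linarith
      · refine ⟨max 0 (- (wt p * Real.log (del (av p) y.rep x))), fun _ =>
          ⟨Or.inr ⟨y, hy, rfl⟩, ?_⟩⟩
        have hd := hdpos (av p) y hy
        have h2 := Real.log_le_log (pow_pos hd μ) (h.trans hbd)
        rw [Real.log_pow, Real.log_mul hub0.ne' hri.ne'] at h2
        have h3 := mul_le_mul_of_nonneg_left h2 (wt_nonneg p)
        have h4 := hub.2
        rw [mul_add] at h3
        have h5 := mul_le_mul_of_nonneg_left (le_max_right 0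
          (- (wt p * Real.log (del (av p) y.rep x)))) (Nat.cast_nonneg (α := ℝ) μ)
        linarith
    · exact ⟨0, fun h => absurd h hp⟩
  choose U hU using hloc
  have hU0 : ∀ p ∈ S, 0 ≤ U p := by
    intro p hp
    rcases (hU p hp).1 with h | ⟨y, hy, h⟩
    · rw [h]
    · rw [h]; exact le_max_left _ _
  set H : ℝ := logHeight x + C0 * N with hH
  have hH0 : 0 ≤ H := add_nonneg (logHeight_nonneg x) (mul_nonneg hC00 hN0)
  have hU1 : ∀ p ∈ S, U p ≤ H := by
    intro p hp
    rcases (hU p hp).1 with h | ⟨y, hy, h⟩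
    · rw [h]; exact hH0
    · rw [h]; exact hb1 p y hy
  have hU2 : ∀ p ∈ S, ∀ p' ∈ S, p ≠ p' → U p + U p' ≤ H := by
    intro p hp p' hp' hpp
    rcases (hU p hp).1 with h | ⟨y, hy, h⟩
    · rw [h, zero_add]; exact hU1 p' hp'
    · rcases (hU p' hp').1 with h' | ⟨y', hy', h'⟩
      · rw [h', add_zero]; exact hU1 p hp
      · rw [h, h']; exact hb2 p p' hpp y hy y' hy'
  have hsum := pair_sum S U H hH0 hU1 hU2
  have h1 : ∑ p ∈ S, wt p * lam (av p) (d i) (bc L (F i)) x ≤ ∑ p ∈ S, (μ * U p + C2 * N) :=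
    Finset.sum_le_sum fun p hp => (hU p hp).2
  rw [Finset.sum_add_distrib, ← Finset.mul_sum, Finset.sum_const, nsmul_eq_mul] at h1
  have hsq : (S.card : ℝ) ≤ q := by exact_mod_cast hSq.le
  have hm : max 1 ((S.card : ℝ) / 2) ≤ max 1 ((q : ℝ) / 2) := max_le_max le_rfl (by linarith)
  have hμ0 : (0 : ℝ) ≤ μ := Nat.cast_nonneg _
  have h2 : (μ : ℝ) * ∑ p ∈ S, U p ≤ μ * (max 1 ((S.card : ℝ) / 2) * logHeight x) +
      μ * (max 1 ((q : ℝ) / 2) * C0) * N := by
    have e1 := mul_le_mul_of_nonneg_left hsum hμ0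
    have e2 : max 1 ((S.card : ℝ) / 2) * H ≤ max 1 ((S.card : ℝ) / 2) * logHeight x +
        max 1 ((q : ℝ) / 2) * (C0 * N) := by
      rw [hH, mul_add]
      have := mul_le_mul_of_nonneg_right hm (mul_nonneg hC00 hN0)
      linarith
    have e3 := mul_le_mul_of_nonneg_left e2 hμ0
    calc _ ≤ _ := e1
      _ ≤ _ := e3
      _ = _ := by ring
  have h3 : (S.card : ℝ) * (C2 * N) ≤ q * C2 * N := by
    have := mul_le_mul_of_nonneg_right hsq (mul_nonneg hC20 hN0)
    linarith
  calc _ ≤ _ := h1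
    _ ≤ (μ * (max 1 ((S.card : ℝ) / 2) * logHeight x) +
      μ * (max 1 ((q : ℝ) / 2) * C0) * N) + q * C2 * N := add_le_add h2 h3
    _ = _ := by ring

end Pool.Agent.W180.TP
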