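import Pool.Agent.W180.TP.Loc

set_option autoImplicit false

/-!
Finite sets of points.
-/

namespace Pool.Agent.W180.TP

open MvPolynomial Finset
open Pool.Agent.W180.OP
open scoped LinearAlgebra.Projectivization

variable {K : Type} [Field K]

theorem mem_rad {ι : Type} [Fintype ι] {n : ℕ} (G : ι → MvPolynomial (Fin n) K)
    (W : MvPolynomial (Fin n) K)
    (h : ∀ (L : Type) [Field L] [Algebra K L] (x : Fin n → L), (∀ i, aeval x (G i) = 0) →
      aeval x W = 0) : W ∈ (Ideal.span (Set.range G)).radical := by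
  obtain ⟨N, A, hA⟩ := nullW G W h
  refine ⟨N, ?_⟩
  rw [hA]
  exact Ideal.sum_mem _ fun i _ => Ideal.mul_mem_left _ _
    (Ideal.subset_span (Set.mem_range_self i))

lemma aeval_map_K' {L : Type} [Field L] [Algebra K L] {n : ℕ} (y : Fin n → K)
    (Q : MvPolynomial (Fin n) K) :
    aeval (fun b => algebraMap K L (y b)) Q = algebraMap K L (eval y Q) := by
  have h := MvPolynomial.aeval_algebraMap_apply L y Q
  rw [aeval_eq_eval] at h
  exact h

lemma eval_smul_hom' {n : ℕ} {d : ℕ} (Q : MvPolynomial (Fin n) K)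
    (hQ : Q.IsHomogeneous d) (c : K) (x : Fin n → K) : eval (c • x) Q = c ^ d * eval x Q := by
  rw [eval_eq, eval_eq, Finset.mul_sum]
  refine Finset.sum_congr rfl fun m hm => ?_
  have h1 : m.degree = d := by
    have := hQ (MvPolynomial.mem_support_iff.1 hm)
    exact (DFunLike.congr_fun (Finsupp.degree_eq_weight_one (σ := Fin n) (R := ℕ)) m).trans this
  have h2 : ∑ i ∈ m.support, m i = d := by rw [← h1]; rfl
  have h3 : ∏ i ∈ m.support, (c • x) i ^ m i = c ^ d * ∏ i ∈ m.support, x i ^ m i := by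
    rw [← h2, ← Finset.prod_pow_eq_pow_sum, ← Finset.prod_mul_distrib]
    refine Finset.prod_congr rfl fun i _ => ?_
    rw [Pi.smul_apply, smul_eq_mul, mul_pow]
  rw [h3]
  ring

lemma aeval_smul_hom' {L : Type} [Field L] [Algebra K L] {n d : ℕ} (Q : MvPolynomial (Fin n) K)
    (hQ : Q.IsHomogeneous d) (c : L) (x : Fin n → L) : aeval (c • x) Q = c ^ d * aeval x Q := by
  rw [← eval_bc, ← eval_bc, eval_smul_hom' _ (bc_hom hQ)]

lemma par_of {L : Type} [Field L] [Algebra K L] {n : ℕ} (x : Fin n → L) (y : Fin n → K)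
    (hy0 : y ≠ 0) (hxy : ∀ a b, x a * algebraMap K L (y b) = x b * algebraMap K L (y a)) :
    ∃ c : L, x = c • fun b => algebraMap K L (y b) := by
  obtain ⟨b, hb⟩ := Function.ne_iff.1 hy0
  have hb' : algebraMap K L (y b) ≠ 0 := by
    rw [Ne, map_eq_zero]
    exact hb
  refine ⟨x b / algebraMap K L (y b), ?_⟩
  funext a
  simp only [Pi.smul_apply, smul_eq_mul]
  rw [div_mul_eq_mul_div, eq_div_iff hb']
  exact hxy a b

theorem finite_pts {n : ℕ} {ι : Type} [Fintype ι] (P : ι → MvPolynomial (Fin n) K)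
    (e : ι → ℕ) (hP : ∀ i, (P i).IsHomogeneous (e i))
    (h : ∀ (L : Type) [Field L] [Algebra K L] (x : Fin n → L), x ≠ 0 →
      (∀ i, aeval x (P i) = 0) → ∃ (y : Fin n → K) (c : L), x = c • fun b => algebraMap K L (y b)) :
    ∃ T : Finset (ℙ K (Fin n → K)), (∀ y ∈ T, ∀ i, eval y.rep (P i) = 0) ∧
      ∀ (L : Type) [Field L] [Algebra K L] (x : Fin n → L), x ≠ 0 → (∀ i, aeval x (P i) = 0) →
        ∃ y ∈ T, ∃ c : L, x = c • fun b => algebraMap K L (y.rep b) := by
  classical
  set I : Ideal (MvPolynomial (Fin n) K) := Ideal.span (Set.range P) with hI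
  have hfin : I.minimalPrimes.Finite := Ideal.finite_minimalPrimes_of_isNoetherianRing _ I
  have hprime : ∀ p : Ideal (MvPolynomial (Fin n) K), ∃ y : Fin n → K, p ∈ I.minimalPrimes →
      (∀ a, X a ∈ p) ∨ (y ≠ 0 ∧ ∀ a b, X a * C (y b) - X b * C (y a) ∈ p) := by
    intro p
    by_cases hp : p ∈ I.minimalPrimes
    · have hpp : p.IsPrime := hp.1.1
      have hIp : I ≤ p := hp.1.2
      set L := FractionRing (MvPolynomial (Fin n) K ⧸ p)
      set φ : MvPolynomial (Fin n) K →ₐ[K] L :=
        (IsScalarTower.toAlgHom K (MvPolynomial (Fin n) K ⧸ p) L).comp (Ideal.Quotient.mkₐ K p)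
        with hφ
      have hφ0 : ∀ P : MvPolynomial (Fin n) K, φ P = 0 ↔ P ∈ p := by
        intro P
        rw [hφ]
        simp only [AlgHom.comp_apply, Ideal.Quotient.mkₐ_eq_mk]
        rw [← Ideal.Quotient.eq_zero_iff_mem]
        constructor
        · intro hh
          exact (IsFractionRing.injective (MvPolynomial (Fin n) K ⧸ p) L)
            (by simpa using hh)
        · intro hh
          rw [hh, map_zero]
      have hae : ∀ P : MvPolynomial (Fin n) K, aeval (fun i => φ (X i)) P = φ P := by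
        intro P
        have : aeval (fun i => φ (X i)) = φ := by
          apply MvPolynomial.algHom_ext
          intro i
          simp
        rw [this]
      by_cases hz : (fun i => φ (X i)) = 0
      · refine ⟨0, fun _ => Or.inl fun a => ?_⟩
        exact (hφ0 _).1 (congrFun hz a)
      · obtain ⟨y, c, hyc⟩ := h L (fun i => φ (X i)) hz fun i => by
          rw [hae, hφ0]; exact hIp (Ideal.subset_span (Set.mem_range_self i))
        refine ⟨y, fun _ => Or.inr ⟨?_, fun a b => ?_⟩⟩
        · rintro rfl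
          apply hz
          rw [hyc]
          funext a
          simp
        · rw [← hφ0]
          have ha := congrFun hyc a
          have hb := congrFun hyc b
          simp only [Pi.smul_apply, smul_eq_mul] at ha hb
          rw [map_sub, map_mul, map_mul, ha, hb]
          have hC : ∀ t : K, φ (C t) = algebraMap K L t := fun t => by
            rw [← MvPolynomial.algebraMap_eq, φ.commutes]
          rw [hC, hC]
          ring
    · exact ⟨0, fun hh => absurd hh hp⟩
  choose y hy using hprime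
  -- representatives
  set T0 : Finset (Fin n → K) := (hfin.toFinset.image y).filter fun y => y ≠ 0 with hT0
  have hT0' : ∀ y ∈ T0, y ≠ 0 := fun y hy => (Finset.mem_filter.1 hy).2
  refine ⟨(T0.attach.image fun y => Projectivization.mk K y.1
    (hT0' y.1 y.2)).filter fun z => ∀ i, eval z.rep (P i) = 0,
    fun z hz => (Finset.mem_filter.1 hz).2, ?_⟩
  intro L _ _ x hx hPx
  set Q : Ideal (MvPolynomial (Fin n) K) := RingHom.ker (aeval x : MvPolynomial (Fin n) K →ₐ[K] L)
    with hQ
  have hQp : Q.IsPrime := RingHom.ker_isPrime _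
  have hIQ : I ≤ Q := by
    rw [hI, Ideal.span_le]
    rintro _ ⟨i, rfl⟩
    exact hPx i
  obtain ⟨p, hp, hpQ⟩ := Ideal.exists_minimalPrimes_le hIQ
  rcases hy p hp with hX | ⟨hy0, hyp⟩
  · exfalso
    apply hx
    funext a
    have h1 := hpQ (hX a)
    rw [hQ, RingHom.mem_ker] at h1
    simpa using h1
  · have h2 : ∀ a b, x a * algebraMap K L (y p b) = x b * algebraMap K L (y p a) := by
      intro a b
      have h1 := hpQ (hyp a b)
      rw [hQ, RingHom.mem_ker] at h1
      simp only [map_sub, map_mul] at h1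
      have h3 : ∀ i, (aeval x : MvPolynomial (Fin n) K →ₐ[K] L) (X i) = x i := fun i => aeval_X _ _
      have h4 : ∀ t, (aeval x : MvPolynomial (Fin n) K →ₐ[K] L) (C t) = algebraMap K L t :=
        fun t => by rw [aeval_C]
      have h5 := sub_eq_zero.1 h1
      rw [← h3, ← h3, ← h4, ← h4]
      exact h5
    obtain ⟨c, hc⟩ := par_of x (y p) hy0 h2
    set z := Projectivization.mk K (y p) hy0 with hz
    obtain ⟨u, hu⟩ : ∃ u : K, y p = u • z.rep := by
      have h1 : Projectivization.mk K (y p) hy0 = Projectivization.mk K z.rep z.rep_nonzero := by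
        rw [Projectivization.mk_rep]
      obtain ⟨u, hu⟩ := (Projectivization.mk_eq_mk_iff' K _ _ _ _).1 h1
      exact ⟨u, hu.symm⟩
    have hc' : x = (c * algebraMap K L u) • fun b => algebraMap K L (z.rep b) := by
      rw [hc]
      funext b
      rw [hu]
      simp only [Pi.smul_apply, smul_eq_mul, map_mul]
      ring
    have hc0 : c * algebraMap K L u ≠ 0 := by
      intro h0
      exact hx (by rw [hc', h0, zero_smul])
    refine ⟨z, ?_, _, hc'⟩
    rw [Finset.mem_filter]
    refine ⟨Finset.mem_image.2 ⟨⟨y p, ?_⟩, Finset.mem_attach _ _, rfl⟩, fun i => ?_⟩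
    · rw [hT0, Finset.mem_filter]
      exact ⟨Finset.mem_image_of_mem _ (hfin.mem_toFinset.2 hp), hy0⟩
    · have h1 := hPx i
      rw [hc', aeval_smul_hom' _ (hP i), aeval_map_K'] at h1
      have h2 := (mul_eq_zero.1 h1).resolve_left (pow_ne_zero _ hc0)
      exact (map_eq_zero _).1 h2

/-- the equations of a point -/
noncomputable def eqn {n : ℕ} (y : Fin n → K) (t : Fin n × Fin n) : MvPolynomial (Fin n) K :=
  X t.1 * C (y t.2) - X t.2 * C (y t.1)

lemma eqn_hom {n : ℕ} (y : Fin n → K) (t : Fin n × Fin n) : (eqn y t).IsHomogeneous 1 := by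
  refine IsHomogeneous.sub ?_ ?_
  · simpa using (isHomogeneous_X K t.1).mul (isHomogeneous_C (Fin n) (y t.2))
  · simpa using (isHomogeneous_X K t.2).mul (isHomogeneous_C (Fin n) (y t.1))

lemma aeval_eqn {L : Type} [Field L] [Algebra K L] {n : ℕ} (y : Fin n → K) (t : Fin n × Fin n)
    (x : Fin n → L) : aeval x (eqn y t) =
      x t.1 * algebraMap K L (y t.2) - x t.2 * algebraMap K L (y t.1) := by
  simp [eqn]

lemma eqn_zero {L : Type} [Field L] [Algebra K L] {n : ℕ} {y : Fin n → K} (hy : y ≠ 0)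
    {x : Fin n → L} (h : ∀ t, aeval x (eqn y t) = 0) :
    ∃ c : L, x = c • fun b => algebraMap K L (y b) := by
  refine par_of x y hy fun a b => ?_
  have := h (a, b)
  rw [aeval_eqn] at this
  exact sub_eq_zero.1 this

/-- linear forms through two points -/
noncomputable def mnr {n : ℕ} (y y' : Fin n → K) (t : Fin n × Fin n × Fin n) :
    MvPolynomial (Fin n) K :=
  C (y' t.1) * eqn y (t.2.2, t.2.1) + C (y' t.2.1) * eqn y (t.1, t.2.2) +
    C (y' t.2.2) * eqn y (t.2.1, t.1)

lemma mnr_hom {n : ℕ} (y y' : Fin n → K) (t : Fin n × Fin n × Fin n) :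
    (mnr y y' t).IsHomogeneous 1 := by
  refine IsHomogeneous.add (IsHomogeneous.add ?_ ?_) ?_
  · simpa using (isHomogeneous_C (Fin n) (y' t.1)).mul (eqn_hom y (t.2.2, t.2.1))
  · simpa using (isHomogeneous_C (Fin n) (y' t.2.1)).mul (eqn_hom y (t.1, t.2.2))
  · simpa using (isHomogeneous_C (Fin n) (y' t.2.2)).mul (eqn_hom y (t.2.1, t.1))

lemma mnr_swap {n : ℕ} (y y' : Fin n → K) (t : Fin n × Fin n × Fin n) :
    mnr y y' t = - mnr y' y t := by
  unfold mnr eqn
  ring

lemma mnr_mem {n : ℕ} (y y' : Fin n → K) (t : Fin n × Fin n × Fin n) :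
    mnr y y' t ∈ Ideal.span (Set.range (eqn y)) := by
  unfold mnr
  refine Ideal.add_mem _ (Ideal.add_mem _ ?_ ?_) ?_ <;>
  exact Ideal.mul_mem_left _ _ (Ideal.subset_span (Set.mem_range_self _))

lemma mnr_mem' {n : ℕ} (y y' : Fin n → K) (t : Fin n × Fin n × Fin n) :
    mnr y y' t ∈ Ideal.span (Set.range (eqn y')) := by
  rw [mnr_swap]
  exact neg_mem (mnr_mem y' y t)

lemma mnr_zero {L : Type} [Field L] [Algebra K L] {n : ℕ} {y y' : Fin n → K}
    (hy : LinearIndependent K ![y, y']) {x : Fin n → L} (h : ∀ t, aeval x (mnr y y' t) = 0) :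
    ∃ s t : L, x = fun b => s * algebraMap K L (y b) + t * algebraMap K L (y' b) := by
  obtain ⟨b, c, hbc⟩ : ∃ b c, y b * y' c - y c * y' b ≠ 0 := by
    by_contra hcon
    push Not at hcon
    rw [LinearIndependent.pair_iff] at hy
    have hy0 : y ≠ 0 := by
      rintro rfl
      have := hy 1 0 (by simp)
      exact one_ne_zero this.1
    obtain ⟨b, hb⟩ := Function.ne_iff.1 hy0
    have h1 := hy (y' b) (- y b) (by
      funext c
      simp only [Pi.add_apply, Pi.smul_apply, smul_eq_mul, Pi.zero_apply]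
      have := hcon b c
      linear_combination (-1 : K) * this)
    exact hb (neg_eq_zero.1 h1.2)
  set φ := algebraMap K L with hφ
  have hD : φ (y b) * φ (y' c) - φ (y c) * φ (y' b) ≠ 0 := by
    rw [← map_mul, ← map_mul, ← map_sub, Ne, map_eq_zero]
    exact hbc
  refine ⟨(x b * φ (y' c) - x c * φ (y' b)) / (φ (y b) * φ (y' c) - φ (y c) * φ (y' b)),
    (x c * φ (y b) - x b * φ (y c)) / (φ (y b) * φ (y' c) - φ (y c) * φ (y' b)), ?_⟩
  funext a
  have h1 := h (a, b, c)
  simp only [mnr, map_add, map_mul, aeval_C, aeval_eqn] at h1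
  rw [← hφ] at h1
  rw [div_mul_eq_mul_div, div_mul_eq_mul_div, ← add_div, eq_div_iff hD]
  linear_combination (-1 : L) * h1

end Pool.Agent.W180.TP
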