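import Pool.Agent.W180.TP.SumM

set_option autoImplicit false

/-!
The bound for the whole proximity function off finitely many lines.
-/

namespace Pool.Agent.W180.TP

open MvPolynomial Finset NumberField IsDedekindDomain Height
open Pool.Agent.W180.OP
open scoped LinearAlgebra.Projectivization

variable {K : Type} [Field K] [NumberField K]

theorem sum_final {n q : ℕ} (hq : 0 < q) {κ : Type} [Fintype κ] (G : κ → MvPolynomial (Fin n) K)
    (g : κ → ℕ) (hG : ∀ k, (G k).IsHomogeneous (g k)) (F : Fin q → MvPolynomial (Fin n) K)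
    (d : Fin q → ℕ) (hF : ∀ i, (F i).IsHomogeneous (d i)) (μ : ℕ)
    (hred : ∀ i j, i ≠ j → ∀ a,
      ∀ Q ∈ (Ideal.span (Set.range (Sum.elim ![F i, F j] G))).radical ^ μ,
      ∃ M : ℕ, X a ^ M * Q ∈ Ideal.span (Set.range (Sum.elim ![F i, F j] G)))
    (hrat : ∀ i j, i ≠ j → ∀ (L : Type) [Field L] [Algebra K L] (x : Fin n → L), x ≠ 0 →
      aeval x (F i) = 0 → aeval x (F j) = 0 → (∀ k, aeval x (G k) = 0) →
        ∃ (y : Fin n → K) (c : L), x = c • fun b => algebraMap K L (y b))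
    (h3 : ∀ i j k, i ≠ j → i ≠ k → j ≠ k → ∀ (L : Type) [Field L] [Algebra K L] (x : Fin n → L),
      x ≠ 0 → aeval x (F i) = 0 → aeval x (F j) = 0 → aeval x (F k) = 0 →
      ¬ (∀ k, aeval x (G k) = 0)) :
    ∃ Z : Finset ((Fin n → K) × (Fin n → K)), (∀ z ∈ Z, LinearIndependent K ![z.1, z.2]) ∧
      ∃ C : ℝ, 0 ≤ C ∧ ∀ (L : Type) [Field L] [NumberField L] [Algebra K L] (S : Finset (Pl L))
        (Δ : ℕ), (∀ I : Finset (Fin q), I.card ≤ S.card → ∑ i ∈ I, d i ≤ Δ) →
        ∀ x : Fin n → L, x ≠ 0 → (∀ k, aeval x (G k) = 0) →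
        (∀ i, aeval x (F i) ≠ 0) →
        (∀ z ∈ Z, ¬ ∃ s t : L, x = fun b => s * algebraMap K L (z.1 b) +
          t * algebraMap K L (z.2 b)) →
        ∑ p ∈ S, wt p * ∑ i, lam (av p) (d i) (bc L (F i)) x ≤
          (Δ + μ * max 1 ((S.card : ℝ) / 2)) * logHeight x +
            C * (S.card + 1) * Module.finrank ℚ L := by
  classical
  -- the common points
  have h1 : ∀ t : Fin q × Fin q, ∃ T : Finset (ℙ K (Fin n → K)), t.1 ≠ t.2 →
      (∀ y ∈ T, eval y.rep (F t.1) = 0) ∧ ∀ (L : Type) [Field L] [Algebra K L] (x : Fin n → L),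
        x ≠ 0 → aeval x (F t.1) = 0 → aeval x (F t.2) = 0 → (∀ k, aeval x (G k) = 0) →
        ∃ y ∈ T, ∃ c : L, x = c • fun b => algebraMap K L (y.rep b) := by
    intro t
    by_cases ht : t.1 = t.2
    · exact ⟨∅, fun h => absurd ht h⟩
    · obtain ⟨T, hT1, hT2⟩ := finite_pts (Sum.elim ![F t.1, F t.2] G)
        (Sum.elim ![d t.1, d t.2] g) (by
          rintro (i | k)
          · fin_cases i
            · exact hF t.1
            · exact hF t.2
          · exact hG k) (by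
          intro L _ _ x hx h
          exact hrat t.1 t.2 ht L x hx (h (Sum.inl 0)) (h (Sum.inl 1)) fun k => h (Sum.inr k))
      refine ⟨T, fun _ => ⟨fun y hy => hT1 y hy (Sum.inl 0), fun L _ _ x hx ha hb hc => ?_⟩⟩
      refine hT2 L x hx ?_
      rintro (i | k)
      · fin_cases i
        · exact ha
        · exact hb
      · exact hc k
  choose T hT using h1
  set TT : Finset (ℙ K (Fin n → K)) :=
    (Finset.univ.filter fun t : Fin q × Fin q => t.1 ≠ t.2).biUnion T with hTT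
  have hTT0 : ∀ y ∈ TT, ∃ i, eval y.rep (F i) = 0 := by
    intro y hy
    rw [hTT, Finset.mem_biUnion] at hy
    obtain ⟨t, ht, hyt⟩ := hy
    exact ⟨t.1, (hT t (Finset.mem_filter.1 ht).2).1 y hyt⟩
  obtain ⟨C, hC0, hC⟩ := sum_main hq G g hG F d hF μ hred TT (by
    intro i j hij L _ _ x hx ha hb hc
    obtain ⟨y, hy, h⟩ := (hT (i, j) hij).2 L x hx ha hb hc
    exact ⟨y, Finset.mem_biUnion.2 ⟨(i, j), Finset.mem_filter.2 ⟨Finset.mem_univ _, hij⟩, hy⟩,
      h⟩) h3
  refine ⟨((TT ×ˢ TT).filter fun t => t.1 ≠ t.2).image fun t => (t.1.rep, t.2.rep), ?_, C, hC0,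
    fun L _ _ _ S Δ hΔ x hx hGx hFx hZ => ?_⟩
  · intro z hz
    obtain ⟨t, ht, rfl⟩ := Finset.mem_image.1 hz
    exact rep_indep (Finset.mem_filter.1 ht).2
  refine hC L S Δ hΔ x hx hGx hFx fun y hy y' hy' h => ?_
  by_cases hyy : y = y'
  · obtain ⟨s, t, hst⟩ := h
    obtain ⟨i, hi⟩ := hTT0 y hy
    apply hFx i
    have e1 : x = (s + t) • fun b => algebraMap K L (y.rep b) := by
      rw [hst, ← hyy]
      funext b
      simp [add_mul]
    rw [e1, aeval_smul_hom' _ (hF i), aeval_map_K', hi, map_zero, mul_zero]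
  · exact hZ (y.rep, y'.rep) (Finset.mem_image.2 ⟨(y, y'), Finset.mem_filter.2
      ⟨Finset.mk_mem_product hy hy', hyy⟩, rfl⟩) h

end Pool.Agent.W180.TP
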