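import Pool.Agent.W180.TP.Main

set_option autoImplicit false

/-!
The bound for the whole proximity function on a projective scheme.
-/

namespace Pool.Agent.W180.TP

open MvPolynomial Finset NumberField IsDedekindDomain Height
open Pool.Agent.W180.OP
open scoped LinearAlgebra.Projectivization

variable {K : Type} [Field K] [NumberField K]

/-- off the lines through two common points, the proximity function is bounded by the heights of
at most `|S|` components plus `μ max(1, |S|/2) h` -/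
theorem sum_main {n q : ℕ} (hq : 0 < q) {κ : Type} [Fintype κ] (G : κ → MvPolynomial (Fin n) K)
    (g : κ → ℕ) (hG : ∀ k, (G k).IsHomogeneous (g k)) (F : Fin q → MvPolynomial (Fin n) K)
    (d : Fin q → ℕ) (hF : ∀ i, (F i).IsHomogeneous (d i)) (μ : ℕ)
    (hred : ∀ i j, i ≠ j → ∀ a,
      ∀ Q ∈ (Ideal.span (Set.range (Sum.elim ![F i, F j] G))).radical ^ μ,
      ∃ M : ℕ, X a ^ M * Q ∈ Ideal.span (Set.range (Sum.elim ![F i, F j] G)))
    (T : Finset (ℙ K (Fin n → K)))
    (hT : ∀ i j, i ≠ j → ∀ (L : Type) [Field L] [Algebra K L] (x : Fin n → L), x ≠ 0 →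
      aeval x (F i) = 0 → aeval x (F j) = 0 → (∀ k, aeval x (G k) = 0) →
        ∃ y ∈ T, ∃ c : L, x = c • fun b => algebraMap K L (y.rep b))
    (h3 : ∀ i j k, i ≠ j → i ≠ k → j ≠ k → ∀ (L : Type) [Field L] [Algebra K L] (x : Fin n → L),
      x ≠ 0 → aeval x (F i) = 0 → aeval x (F j) = 0 → aeval x (F k) = 0 →
      ¬ (∀ k, aeval x (G k) = 0)) :
    ∃ C : ℝ, 0 ≤ C ∧ ∀ (L : Type) [Field L] [NumberField L] [Algebra K L] (S : Finset (Pl L))
      (Δ : ℕ), (∀ I : Finset (Fin q), I.card ≤ S.card → ∑ i ∈ I, d i ≤ Δ) →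
      ∀ x : Fin n → L, x ≠ 0 → (∀ k, aeval x (G k) = 0) →
      (∀ i, aeval x (F i) ≠ 0) →
      (∀ y ∈ T, ∀ y' ∈ T, ¬ ∃ s t : L, x = fun b => s * algebraMap K L (y.rep b) +
        t * algebraMap K L (y'.rep b)) →
      ∑ p ∈ S, wt p * ∑ i, lam (av p) (d i) (bc L (F i)) x ≤
        (Δ + μ * max 1 ((S.card : ℝ) / 2)) * logHeight x +
          C * (S.card + 1) * Module.finrank ℚ L := by
  classical
  obtain ⟨C0, hC00, hC0⟩ := two_pts T
  have hnear : ∀ t : Fin q × Fin q, ∃ C : ℝ, 0 ≤ C ∧ ∀ (L : Type) [Field L] [NumberField L]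
      [Algebra K L] (p : Pl L), ∃ R : ℝ, UB C p R ∧ (t.1 ≠ t.2 → ∀ x : Fin n → L, x ≠ 0 →
        (∀ k, aeval x (G k) = 0) →
        (1 ≤ R * (rho (av p) (d t.1) (F t.1) x + rho (av p) (d t.2) (F t.2) x)) ∨
        ∃ y ∈ T, del (av p) y.rep x ^ μ ≤
          R * (rho (av p) (d t.1) (F t.1) x + rho (av p) (d t.2) (F t.2) x)) := by
    intro t
    by_cases ht : t.1 = t.2
    · exact ⟨0, le_rfl, fun L _ _ _ p => ⟨1, ⟨le_rfl, by simp⟩, fun h => absurd ht h⟩⟩
    · obtain ⟨C, hC0, hC⟩ := near ![F t.1, F t.2] ![d t.1, d t.2] (by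
          intro i
          fin_cases i
          · exact hF t.1
          · exact hF t.2) G g hG μ (hred t.1 t.2 ht) T (by
          intro L _ _ x hx h1 h2
          exact hT t.1 t.2 ht L x hx (h1 0) (h1 1) h2)
      refine ⟨C, hC0, fun L _ _ _ p => ?_⟩
      obtain ⟨R, hR, h2⟩ := hC L p
      refine ⟨R, hR, fun _ x hx hGx => ?_⟩
      have h3 := h2 x hx hGx
      rw [Fin.sum_univ_two] at h3
      exact h3
  choose C1 hC10 hC1 using hnear
  -- triples
  have htri : ∀ t : Fin q × Fin q × Fin q, ∃ C : ℝ, 0 ≤ C ∧ ∀ (L : Type) [Field L] [NumberField L]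
      [Algebra K L] (p : Pl L), ∃ R : ℝ, UB C p R ∧
        (t.1 ≠ t.2.1 → t.1 ≠ t.2.2 → t.2.1 ≠ t.2.2 → ∀ x : Fin n → L, x ≠ 0 →
        (∀ k, aeval x (G k) = 0) →
        1 ≤ R * (rho (av p) (d t.1) (F t.1) x + rho (av p) (d t.2.1) (F t.2.1) x +
          rho (av p) (d t.2.2) (F t.2.2) x)) := by
    intro t
    by_cases ht : t.1 ≠ t.2.1 ∧ t.1 ≠ t.2.2 ∧ t.2.1 ≠ t.2.2
    · obtain ⟨C, hC0, hC⟩ := ineq ![F t.1, F t.2.1, F t.2.2] ![d t.1, d t.2.1, d t.2.2] (by
          intro i
          fin_cases i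
          · exact hF t.1
          · exact hF t.2.1
          · exact hF t.2.2) G g hG 1 0 (isHomogeneous_one _ _) (by
          intro a
          have h1 : (X a : MvPolynomial (Fin n) K) ∈
              (Ideal.span (Set.range (Sum.elim ![F t.1, F t.2.1, F t.2.2] G))).radical := by
            refine mem_rad _ _ fun L _ _ x hx => ?_
            by_contra hxa
            rw [aeval_X] at hxa
            exact h3 t.1 t.2.1 t.2.2 ht.1 ht.2.1 ht.2.2 L x (by rintro rfl; exact hxa rfl)
              (hx (Sum.inl 0)) (hx (Sum.inl 1)) (hx (Sum.inl 2)) fun k => hx (Sum.inr k)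
          obtain ⟨M, hM⟩ := h1
          exact ⟨M, by rwa [mul_one]⟩)
      refine ⟨C, hC0, fun L _ _ _ p => ?_⟩
      obtain ⟨R, hR, h2⟩ := hC L p
      refine ⟨R, hR, fun _ _ _ x hx hGx => ?_⟩
      have h3 := h2 x hx hGx
      rw [Fin.sum_univ_three, rho_one] at h3
      exact h3
    · exact ⟨0, le_rfl, fun L _ _ _ p => ⟨1, ⟨le_rfl, by simp⟩, fun a b c =>
        absurd ⟨a, b, c⟩ ht⟩⟩
  choose C5 hC50 hC5 using htri
  choose C6 hC60 hC6 using fun i : Fin q => liou_u (F i) (d i) (hF i)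
  set C2 : ℝ := (Real.log 2 + ∑ t, C1 t) + (Real.log 3 + ∑ t, C5 t) with hC2
  have hC2a : 0 ≤ Real.log 2 + ∑ t, C1 t := add_nonneg (Real.log_nonneg one_le_two)
    (Finset.sum_nonneg fun t _ => hC10 t)
  have hC2b : 0 ≤ Real.log 3 + ∑ t, C5 t := add_nonneg (Real.log_nonneg (by norm_num))
    (Finset.sum_nonneg fun t _ => hC50 t)
  have hC20 : 0 ≤ C2 := add_nonneg hC2a hC2b
  have hC6s : 0 ≤ ∑ i, C6 i := Finset.sum_nonneg fun i _ => hC60 i
  refine ⟨(q + 1) * C2 + μ * C0 + ∑ i, C6 i, by positivity, ?_⟩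
  intro L _ _ _ S Δ hΔ x hx hGx hFx hxT
  set N : ℝ := (Module.finrank ℚ L : ℝ) with hN
  have hN0 : 0 ≤ N := Nat.cast_nonneg _
  obtain ⟨hb1, hb2⟩ := hC0 L x hx hxT
  have hdpos : ∀ (f : AbsoluteValue L ℝ), ∀ y ∈ T, 0 < del f y.rep x := by
    intro f y hy
    refine del_pos f y.rep_nonzero hx ?_
    rintro ⟨c, hc⟩
    refine hxT y hy y hy ⟨c, 0, ?_⟩
    rw [hc]
    funext b
    simp
  -- local statement
  have hloc : ∀ p : Pl L, ∃ (i0 : Fin q) (U : ℝ),
      (U = 0 ∨ ∃ y ∈ T, U = max 0 (- (wt p * Real.log (del (av p) y.rep x)))) ∧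
      wt p * ∑ i, lam (av p) (d i) (bc L (F i)) x ≤
        wt p * max 0 (lam (av p) (d i0) (bc L (F i0)) x) + μ * U + (q + 1) * C2 * N := by
    intro p
    have : Nonempty (Fin q) := ⟨⟨0, hq⟩⟩
    obtain ⟨i0, -, hi0⟩ := Finset.exists_min_image (Finset.univ : Finset (Fin q))
      (fun j => rho (av p) (d j) (F j) x) Finset.univ_nonempty
    have hw := wt_nonneg p
    have hsplit : wt p * ∑ i, lam (av p) (d i) (bc L (F i)) x =
        wt p * lam (av p) (d i0) (bc L (F i0)) x +
          ∑ i ∈ Finset.univ.erase i0, wt p * lam (av p) (d i) (bc L (F i)) x := by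
      rw [← Finset.add_sum_erase _ _ (Finset.mem_univ i0), mul_add, Finset.mul_sum]
    have hfirst : wt p * lam (av p) (d i0) (bc L (F i0)) x ≤
        wt p * max 0 (lam (av p) (d i0) (bc L (F i0)) x) :=
      mul_le_mul_of_nonneg_left (le_max_right _ _) hw
    rcases (Finset.univ.erase i0).eq_empty_or_nonempty with he | he
    · refine ⟨i0, 0, Or.inl rfl, ?_⟩
      rw [hsplit, he, Finset.sum_empty]
      have : (0 : ℝ) ≤ (q + 1) * C2 * N := by positivity
      linarith
    · obtain ⟨i1, hi1, hi1'⟩ := Finset.exists_min_image (Finset.univ.erase i0)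
        (fun j => rho (av p) (d j) (F j) x) he
      have hne : i1 ≠ i0 := Finset.ne_of_mem_erase hi1
      choose R1 hR1 h1 using fun t => hC1 t L p
      choose R5 hR5 h5 using fun t => hC5 t L p
      have hub : UB (Real.log 2 + ∑ t, C1 t) p (2 * ∏ t, R1 t) :=
        (UB.const p one_le_two).mul (UB.prod Finset.univ fun t _ => hR1 t)
      have hub5 : UB (Real.log 3 + ∑ t, C5 t) p (3 * ∏ t, R5 t) :=
        (UB.const p (by norm_num)).mul (UB.prod Finset.univ fun t _ => hR5 t)
      have hub0 : (0 : ℝ) < 2 * ∏ t, R1 t := by linarith [hub.1]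
      have hub50 : (0 : ℝ) < 3 * ∏ t, R5 t := by linarith [hub5.1]
      -- the second component
      have hsec : ∃ U : ℝ, (U = 0 ∨ ∃ y ∈ T, U = max 0 (- (wt p *
          Real.log (del (av p) y.rep x)))) ∧
          wt p * lam (av p) (d i1) (bc L (F i1)) x ≤ μ * U + C2 * N := by
        have hRle : R1 (i1, i0) ≤ ∏ t, R1 t :=
          UB.le_prod (fun t _ => hR1 t) (Finset.mem_univ _)
        have hri := rho_pos (av p) (d i1) (F i1) hx (hFx i1)
        have hr0 := hi0 i1 (Finset.mem_univ _)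
        have hR0 := (hR1 (i1, i0)).1
        have hbd : R1 (i1, i0) * (rho (av p) (d i1) (F i1) x +
            rho (av p) (d i0) (F i0) x) ≤ (2 * ∏ t, R1 t) * rho (av p) (d i1) (F i1) x := by
          calc _ ≤ R1 (i1, i0) * (rho (av p) (d i1) (F i1) x + rho (av p) (d i1) (F i1) x) :=
                mul_le_mul_of_nonneg_left (by linarith) (by linarith)
            _ = (2 * R1 (i1, i0)) * rho (av p) (d i1) (F i1) x := by ring
            _ ≤ _ := mul_le_mul_of_nonneg_right (by linarith) hri.le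
        have hC2N : (Real.log 2 + ∑ t, C1 t) * N ≤ C2 * N :=
          mul_le_mul_of_nonneg_right (by linarith) hN0
        rw [lam_rho]
        rcases h1 (i1, i0) hne x hx hGx with h | ⟨y, hy, h⟩
        · refine ⟨0, Or.inl rfl, ?_⟩
          have h2 := Real.log_le_log one_pos (h.trans hbd)
          rw [Real.log_one, Real.log_mul hub0.ne' hri.ne'] at h2
          have h3 := mul_le_mul_of_nonneg_left h2 (wt_nonneg p)
          have h4 := hub.2
          rw [mul_zero, mul_add] at h3
          linarith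
        · refine ⟨max 0 (- (wt p * Real.log (del (av p) y.rep x))), Or.inr ⟨y, hy, rfl⟩, ?_⟩
          have hd := hdpos (av p) y hy
          have h2 := Real.log_le_log (pow_pos hd μ) (h.trans hbd)
          rw [Real.log_pow, Real.log_mul hub0.ne' hri.ne'] at h2
          have h3 := mul_le_mul_of_nonneg_left h2 (wt_nonneg p)
          have h4 := hub.2
          rw [mul_add] at h3
          have h5 := mul_le_mul_of_nonneg_left (le_max_right 0
            (- (wt p * Real.log (del (av p) y.rep x)))) (Nat.cast_nonneg (α := ℝ) μ)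
          linarith
      -- the other components
      have hoth : ∀ i ∈ (Finset.univ.erase i0).erase i1,
          wt p * lam (av p) (d i) (bc L (F i)) x ≤ C2 * N := by
        intro i hi
        have hi_1 : i ≠ i1 := Finset.ne_of_mem_erase hi
        have hi_0 : i ≠ i0 := Finset.ne_of_mem_erase (Finset.mem_of_mem_erase hi)
        have hRle : R5 (i, i0, i1) ≤ ∏ t, R5 t :=
          UB.le_prod (fun t _ => hR5 t) (Finset.mem_univ _)
        have hri := rho_pos (av p) (d i) (F i) hx (hFx i)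
        have hr0 := hi0 i (Finset.mem_univ _)
        have hr1 := hi1' i (Finset.mem_of_mem_erase hi)
        have hR0 := (hR5 (i, i0, i1)).1
        have h6 := h5 (i, i0, i1) hi_0 hi_1 hne.symm x hx hGx
        simp only at h6
        have hbd : 1 ≤ (3 * ∏ t, R5 t) * rho (av p) (d i) (F i) x := by
          calc (1 : ℝ) ≤ _ := h6
            _ ≤ R5 (i, i0, i1) * (rho (av p) (d i) (F i) x + rho (av p) (d i) (F i) x +
              rho (av p) (d i) (F i) x) := mul_le_mul_of_nonneg_left (by linarith) (by linarith)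
            _ = (3 * R5 (i, i0, i1)) * rho (av p) (d i) (F i) x := by ring
            _ ≤ _ := mul_le_mul_of_nonneg_right (by linarith) hri.le
        have hC2N : (Real.log 3 + ∑ t, C5 t) * N ≤ C2 * N :=
          mul_le_mul_of_nonneg_right (by linarith) hN0
        rw [lam_rho]
        have h2 := Real.log_le_log one_pos hbd
        rw [Real.log_one, Real.log_mul hub50.ne' hri.ne'] at h2
        have h3 := mul_le_mul_of_nonneg_left h2 (wt_nonneg p)
        have h4 := hub5.2
        rw [mul_zero, mul_add] at h3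
        linarith
      obtain ⟨U, hU, hU'⟩ := hsec
      refine ⟨i0, U, hU, ?_⟩
      rw [hsplit, ← Finset.add_sum_erase _ _ hi1]
      have h7 := Finset.sum_le_sum hoth
      rw [Finset.sum_const, nsmul_eq_mul] at h7
      have h8 : (((Finset.univ.erase i0).erase i1).card : ℝ) ≤ q := by
        have : ((Finset.univ.erase i0).erase i1).card ≤ (Finset.univ : Finset (Fin q)).card :=
          Finset.card_le_card ((Finset.erase_subset _ _).trans (Finset.erase_subset _ _))
        rw [Finset.card_univ, Fintype.card_fin] at this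
        exact_mod_cast this
      have h9 := mul_le_mul_of_nonneg_right h8 (mul_nonneg hC20 hN0)
      linarith
  choose i0 U hU hUb using hloc
  set H : ℝ := logHeight x + C0 * N with hH
  have hH0 : 0 ≤ H := add_nonneg (logHeight_nonneg x) (mul_nonneg hC00 hN0)
  have hU1 : ∀ p ∈ S, U p ≤ H := by
    intro p hp
    rcases (hU p) with h | ⟨y, hy, h⟩
    · rw [h]; exact hH0
    · rw [h]; exact hb1 p y hy
  have hU2 : ∀ p ∈ S, ∀ p' ∈ S, p ≠ p' → U p + U p' ≤ H := by
    intro p hp p' hp' hpp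
    rcases (hU p) with h | ⟨y, hy, h⟩
    · rw [h, zero_add]; exact hU1 p' hp'
    · rcases (hU p') with h' | ⟨y', hy', h'⟩
      · rw [h', add_zero]; exact hU1 p hp
      · rw [h, h']; exact hb2 p p' hpp y hy y' hy'
  have hsum := pair_sum S U H hH0 hU1 hU2
  have hh := logHeight_nonneg x
  -- the nearest components
  set I : Finset (Fin q) := S.image i0 with hI
  have hIc : I.card ≤ S.card := Finset.card_image_le
  have h4 : ∑ p ∈ S, wt p * max 0 (lam (av p) (d (i0 p)) (bc L (F (i0 p))) x) ≤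
      Δ * logHeight x + (∑ i, C6 i) * N := by
    have e1 : ∀ p ∈ S, wt p * max 0 (lam (av p) (d (i0 p)) (bc L (F (i0 p))) x) ≤
        ∑ i ∈ I, wt p * max 0 (lam (av p) (d i) (bc L (F i)) x) := by
      intro p hp
      exact Finset.single_le_sum (f := fun i => wt p * max 0 (lam (av p) (d i) (bc L (F i)) x))
        (fun i _ => mul_nonneg (wt_nonneg p) (le_max_left _ _)) (Finset.mem_image_of_mem i0 hp)
    have e2 := Finset.sum_le_sum e1
    rw [Finset.sum_comm] at e2
    refine e2.trans ?_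
    have e3 : ∀ i ∈ I, ∑ p ∈ S, wt p * max 0 (lam (av p) (d i) (bc L (F i)) x) ≤
        d i * logHeight x + C6 i * N := fun i _ => hC6 i L S x hx (hFx i)
    refine (Finset.sum_le_sum e3).trans ?_
    rw [Finset.sum_add_distrib, ← Finset.sum_mul, ← Finset.sum_mul]
    refine add_le_add (mul_le_mul_of_nonneg_right ?_ hh) (mul_le_mul_of_nonneg_right ?_ hN0)
    · exact_mod_cast hΔ I hIc
    · exact Finset.sum_le_sum_of_subset_of_nonneg (Finset.subset_univ _) fun i _ _ => hC60 i
  have h1 : ∑ p ∈ S, wt p * ∑ i, lam (av p) (d i) (bc L (F i)) x ≤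
      ∑ p ∈ S, (wt p * max 0 (lam (av p) (d (i0 p)) (bc L (F (i0 p))) x) + μ * U p +
        (q + 1) * C2 * N) :=
    Finset.sum_le_sum fun p hp => hUb p
  rw [Finset.sum_add_distrib, Finset.sum_add_distrib, ← Finset.mul_sum, Finset.sum_const,
    nsmul_eq_mul] at h1
  have hμ0 : (0 : ℝ) ≤ μ := Nat.cast_nonneg _
  have hs0 : (0 : ℝ) ≤ S.card := Nat.cast_nonneg _
  have hm : max 1 ((S.card : ℝ) / 2) ≤ S.card + 1 := max_le (by linarith) (by linarith)
  have h2 : (μ : ℝ) * ∑ p ∈ S, U p ≤ μ * max 1 ((S.card : ℝ) / 2) * logHeight x +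
      μ * C0 * (S.card + 1) * N := by
    have e1 := mul_le_mul_of_nonneg_left hsum hμ0
    have e2 : max 1 ((S.card : ℝ) / 2) * H ≤ max 1 ((S.card : ℝ) / 2) * logHeight x +
        (S.card + 1) * (C0 * N) := by
      rw [hH, mul_add]
      have := mul_le_mul_of_nonneg_right hm (mul_nonneg hC00 hN0)
      linarith
    have e3 := mul_le_mul_of_nonneg_left e2 hμ0
    calc _ ≤ _ := e1
      _ ≤ _ := e3
      _ = _ := by ring
  have h5 : (∑ i, C6 i) * N ≤ (∑ i, C6 i) * (S.card + 1) * N := by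
    have := mul_nonneg (mul_nonneg hC6s hs0) hN0
    nlinarith
  have h6 : (S.card : ℝ) * ((q + 1) * C2 * N) ≤ (q + 1) * C2 * (S.card + 1) * N := by
    have : 0 ≤ ((q : ℝ) + 1) * C2 * N := by positivity
    nlinarith
  calc _ ≤ _ := h1
    _ ≤ (Δ * logHeight x + (∑ i, C6 i) * (S.card + 1) * N) +
        (μ * max 1 ((S.card : ℝ) / 2) * logHeight x + μ * C0 * (S.card + 1) * N) +
        (q + 1) * C2 * (S.card + 1) * N := by linarith
    _ = _ := by ring

end Pool.Agent.W180.TP
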